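import Pool.Agent.W740.TC.Conv
import Pool.Agent.H779R2.To.TInv

set_option autoImplicit false
set_option linter.unusedSectionVars false

/-! The real hyperbolic splitting of an integer matrix. -/

open Filter Topology Set

namespace Pool.Agent.T9h69.CT

open Pool.Agent.W740.TC Pool.Agent.H779R2.To

variable {m : ℕ}

theorem am_add (A : Matrix (Fin m) (Fin m) ℤ) (v w : Fin m → ℝ) :
    am A (v + w) = am A v + am A w := by
  funext i
  simp [am, mul_add, Finset.sum_add_distrib]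

theorem am_smul (A : Matrix (Fin m) (Fin m) ℤ) (c : ℝ) (v : Fin m → ℝ) :
    am A (c • v) = c • am A v := by
  funext i
  simp only [am, Pi.smul_apply, smul_eq_mul, Finset.mul_sum]
  exact Finset.sum_congr rfl fun j _ => by ring

theorem am_comp (A B : Matrix (Fin m) (Fin m) ℤ) (v : Fin m → ℝ) :
    am (A * B) v = am A (am B v) := by
  funext i
  simp only [am, Matrix.mul_apply, Finset.mul_sum]
  rw [Finset.sum_comm]
  refine Finset.sum_congr rfl fun j _ => ?_
  push_cast
  rw [Finset.sum_mul]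
  exact Finset.sum_congr rfl fun k _ => by ring

theorem am_one (v : Fin m → ℝ) : am 1 v = v := by
  funext i
  simp only [am]
  rw [Finset.sum_eq_single i]
  · simp
  · intro j _ hj
    rw [Matrix.one_apply_ne (Ne.symm hj)]
    simp
  · intro h
    exact absurd (Finset.mem_univ i) h

theorem am_inv {A A' : Matrix (Fin m) (Fin m) ℤ} (h : A * A' = 1) (v : Fin m → ℝ) :
    am A (am A' v) = v := by
  rw [← am_comp, h, am_one]

theorem iter_add (A : Matrix (Fin m) (Fin m) ℤ) (n : ℕ) (v w : Fin m → ℝ) :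
    (am A)^[n] (v + w) = (am A)^[n] v + (am A)^[n] w := by
  induction n generalizing v w with
  | zero => rfl
  | succ n ih => rw [Function.iterate_succ_apply, Function.iterate_succ_apply,
      Function.iterate_succ_apply, am_add, ih]

theorem iter_smul (A : Matrix (Fin m) (Fin m) ℤ) (n : ℕ) (c : ℝ) (v : Fin m → ℝ) :
    (am A)^[n] (c • v) = c • (am A)^[n] v := by
  induction n generalizing v with
  | zero => rfl
  | succ n ih => rw [Function.iterate_succ_apply, Function.iterate_succ_apply, am_smul, ih]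

theorem iter_zero (A : Matrix (Fin m) (Fin m) ℤ) (n : ℕ) :
    (am A)^[n] (0 : Fin m → ℝ) = 0 := Function.iterate_fixed (am_zero A) n

theorem iter_inv {A A' : Matrix (Fin m) (Fin m) ℤ} (h : A * A' = 1) (n : ℕ) (v : Fin m → ℝ) :
    (am A)^[n] ((am A')^[n] v) = v := by
  induction n with
  | zero => rfl
  | succ n ih =>
    rw [Function.iterate_succ_apply, Function.iterate_succ_apply', am_inv h, ih]

theorem hyp_inv {A A' : Matrix (Fin m) (Fin m) ℤ} (h : A * A' = 1) (hA : HypMat A) :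
    HypMat A' := by
  have hdet : IsUnit A.det := by
    have h1 := congrArg Matrix.det h
    rw [Matrix.det_mul, Matrix.det_one] at h1
    exact IsUnit.of_mul_eq_one _ h1
  have h2 : A⁻¹ = A' := Matrix.inv_eq_right_inv h
  rw [← h2]
  exact HypMat.inv_aux A hdet hA

/-- vectors with a bounded forward orbit -/
def Bd (A : Matrix (Fin m) (Fin m) ℤ) : Submodule ℝ (Fin m → ℝ) where
  carrier := {v | ∃ K : ℝ, ∀ n, ‖(am A)^[n] v‖ ≤ K}
  add_mem' := by
    rintro v w ⟨K, hK⟩ ⟨L, hL⟩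
    refine ⟨K + L, fun n => ?_⟩
    rw [iter_add]
    exact (norm_add_le _ _).trans (add_le_add (hK n) (hL n))
  zero_mem' := ⟨0, fun n => by rw [iter_zero, norm_zero]⟩
  smul_mem' := by
    rintro c v ⟨K, hK⟩
    refine ⟨‖c‖ * K, fun n => ?_⟩
    rw [iter_smul, norm_smul]
    exact mul_le_mul_of_nonneg_left (hK n) (norm_nonneg _)

theorem mem_Bd {A : Matrix (Fin m) (Fin m) ℤ} {v : Fin m → ℝ} :
    v ∈ Bd A ↔ ∃ K : ℝ, ∀ n, ‖(am A)^[n] v‖ ≤ K := Iff.rfl

theorem Bd_map {A : Matrix (Fin m) (Fin m) ℤ} {v : Fin m → ℝ} (hv : v ∈ Bd A) :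
    am A v ∈ Bd A := by
  obtain ⟨K, hK⟩ := hv
  exact ⟨K, fun n => hK (n + 1)⟩

theorem Bd_map' {A A' : Matrix (Fin m) (Fin m) ℤ} (h : A * A' = 1) {v : Fin m → ℝ}
    (hv : v ∈ Bd A) : am A' v ∈ Bd A := by
  obtain ⟨K, hK⟩ := hv
  refine ⟨max K ‖am A' v‖, fun n => ?_⟩
  cases n with
  | zero => exact le_max_right _ _
  | succ n =>
    rw [Function.iterate_succ_apply, am_inv h]
    exact (hK n).trans (le_max_left _ _)

theorem Bd_iter {A : Matrix (Fin m) (Fin m) ℤ} (n : ℕ) {v : Fin m → ℝ} (hv : v ∈ Bd A) :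
    (am A)^[n] v ∈ Bd A := by
  induction n with
  | zero => exact hv
  | succ n ih =>
    rw [Function.iterate_succ_apply']
    exact Bd_map ih

theorem Bd_iter' {A A' : Matrix (Fin m) (Fin m) ℤ} (h : A * A' = 1) (n : ℕ) {v : Fin m → ℝ}
    (hv : v ∈ Bd A) : (am A')^[n] v ∈ Bd A := by
  induction n with
  | zero => exact hv
  | succ n ih =>
    rw [Function.iterate_succ_apply']
    exact Bd_map' h ih

/-- uniform contraction of `Bd A` -/
theorem Bd_contr {A A' : Matrix (Fin m) (Fin m) ℤ} (h : A' * A = 1) (hA : HypMat A) :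
    ∃ C l : ℝ, 1 ≤ C ∧ 0 < l ∧ l < 1 ∧ ∀ v ∈ Bd A, ∀ n, ‖(am A)^[n] v‖ ≤ C * l ^ n * ‖v‖ := by
  have h' : A * A' = 1 := mul_eq_one_comm.mp h
  obtain ⟨C, l, h1, h2, h3, h4⟩ := bdd_contr A' A h (hyp_inv h' hA)
  refine ⟨C, l, h1, h2, h3, fun v hv n => h4 v ?_ n⟩
  obtain ⟨K, hK⟩ := hv
  exact ⟨K, 0, fun n _ => hK n⟩

theorem Bd_disj {A A' : Matrix (Fin m) (Fin m) ℤ} (h : A' * A = 1) (hA : HypMat A)
    {v : Fin m → ℝ} (h1 : v ∈ Bd A) (h2 : v ∈ Bd A') : v = 0 := by
  have h' : A * A' = 1 := mul_eq_one_comm.mp h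
  obtain ⟨C, l, hC, hl, hl', hc⟩ := Bd_contr h hA
  obtain ⟨K, hK⟩ := h2
  have h3 : ∀ n : ℕ, ‖v‖ ≤ C * l ^ n * K := by
    intro n
    have h4 := hc _ (Bd_iter' h' n h1) n
    rw [iter_inv h'] at h4
    exact h4.trans (mul_le_mul_of_nonneg_left (hK n) (by positivity))
  have ht : Tendsto (fun n : ℕ => C * l ^ n * K) atTop (𝓝 0) := by
    have := ((tendsto_pow_atTop_nhds_zero_of_lt_one hl.le hl').const_mul C).mul_const K
    simpa using this
  have h5 : ‖v‖ ≤ 0 := ge_of_tendsto' ht h3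
  exact norm_le_zero_iff.mp h5

/-- real part -/
noncomputable def re' (w : Fin m → ℂ) : Fin m → ℝ := fun i => (w i).re

theorem re_norm (w : Fin m → ℂ) : ‖re' w‖ ≤ ‖w‖ := by
  rw [pi_norm_le_iff_of_nonneg (norm_nonneg _)]
  intro i
  exact (Complex.abs_re_le_norm _).trans (norm_le_pi_norm w i)

theorem re_cx (A : Matrix (Fin m) (Fin m) ℤ) (w : Fin m → ℂ) : re' (cx A w) = am A (re' w) := by
  funext i
  show (Matrix.toLin' (A.map (Int.cast : ℤ → ℂ)) w i).re = ∑ j, (A i j : ℝ) * (w j).re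
  rw [Matrix.toLin'_apply, Matrix.mulVec, dotProduct, Complex.re_sum]
  refine Finset.sum_congr rfl fun j _ => ?_
  rw [Matrix.map_apply]
  simp

theorem re_pow (A : Matrix (Fin m) (Fin m) ℤ) (n : ℕ) (w : Fin m → ℂ) :
    re' (((cx A) ^ n) w) = (am A)^[n] (re' w) := by
  induction n with
  | zero => rfl
  | succ n ih =>
    rw [pow_succ', Function.iterate_succ_apply', ← ih, ← re_cx]
    rfl

theorem Bd_sup {A A' : Matrix (Fin m) (Fin m) ℤ} (h : A * A' = 1) (hA : HypMat A)
    (v : Fin m → ℝ) : ∃ a ∈ Bd A, ∃ b ∈ Bd A', v = a + b := by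
  set T := cx A with hT
  set T' := cx A' with hT'
  have hTT : ∀ w, T (T' w) = w := by
    intro w
    show Matrix.toLin' (A.map (Int.cast : ℤ → ℂ)) (Matrix.toLin' (A'.map (Int.cast : ℤ → ℂ)) w) = w
    rw [← LinearMap.comp_apply, ← Matrix.toLin'_mul]
    have h1 : A.map (Int.cast : ℤ → ℂ) * A'.map (Int.cast : ℤ → ℂ) = 1 := by
      have h2 := congrArg (fun B : Matrix (Fin m) (Fin m) ℤ => B.map (Int.castRingHom ℂ)) h
      simp only [Matrix.map_mul] at h2
      rw [Matrix.map_one _ (map_zero _) (map_one _)] at h2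
      exact h2
    rw [h1, Matrix.toLin'_one]
    rfl
  have heig : ∀ ν : ℂ, T.HasEigenvalue ν → ‖ν‖ ≠ 1 := by
    intro ν hν h1
    rw [Module.End.hasEigenvalue_iff_isRoot_charpoly] at hν
    apply hA ν h1
    have h2 : T.charpoly = (A.map (Int.castRingHom ℂ)).charpoly := Matrix.charpoly_toLin' _
    rwa [h2] at hν
  have hTpow : ∀ (n : ℕ) (w : Fin m → ℂ), (T ^ n) ((T' ^ n) w) = w := by
    intro n
    induction n with
    | zero => intro w; rfl
    | succ n ih =>
      intro w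
      rw [pow_succ, pow_succ' T']
      show (T ^ n) (T (T' ((T' ^ n) w))) = w
      rw [hTT, ih]
  obtain ⟨C₁, l₁, hl₁, hl₁', h1⟩ := Tu_exp T
  obtain ⟨C₂, l₂, hC₂, hl₂, hl₂', h2⟩ := Tc_contr T heig
  have hc := W_compl T
  have hbij : Function.Bijective T := by
    have hs : Function.Surjective T := fun w => ⟨T' w, hTT w⟩
    exact ⟨LinearMap.injective_iff_surjective.mpr hs, hs⟩
  have hT'T : ∀ w, T' (T w) = w := fun w => hbij.1 (hTT _)
  have hinv : ∀ (S : Submodule ℂ (Fin m → ℂ)), (∀ v ∈ S, T v ∈ S) → ∀ v ∈ S, T' v ∈ S := by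
    intro S hS v hv
    have h3 : Function.Injective (T.restrict hS) := by
      intro a b hab
      apply Subtype.ext
      apply hbij.1
      have := congrArg (fun w : S => (w : Fin m → ℂ)) hab
      exact this
    obtain ⟨w, hw⟩ := LinearMap.injective_iff_surjective.mp h3 ⟨v, hv⟩
    have h4 : T (w : Fin m → ℂ) = v := congrArg (fun w : S => (w : Fin m → ℂ)) hw
    rw [← h4, hT'T]
    exact w.2
  have hinvp : ∀ (S : Submodule ℂ (Fin m → ℂ)), (∀ v ∈ S, T v ∈ S) → ∀ (n : ℕ), ∀ v ∈ S,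
      (T' ^ n) v ∈ S := by
    intro S hS n
    induction n with
    | zero => intro v hv; exact hv
    | succ n ih =>
      intro v hv
      rw [pow_succ']
      exact hinv S hS _ (ih v hv)
  have hTu : ∀ (n : ℕ) (v : Wu T), (((Tu T) ^ n) v : Fin m → ℂ) = (T ^ n) v := by
    intro n
    induction n with
    | zero => intro v; rfl
    | succ n ih =>
      intro v
      rw [pow_succ', pow_succ' T]
      show T (((Tu T) ^ n) v : Fin m → ℂ) = T ((T ^ n) v)
      rw [ih]
  have hTc : ∀ (n : ℕ) (v : Wc T), (((Tc T) ^ n) v : Fin m → ℂ) = (T ^ n) v := by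
    intro n
    induction n with
    | zero => intro v; rfl
    | succ n ih =>
      intro v
      rw [pow_succ', pow_succ' T]
      show T (((Tc T) ^ n) v : Fin m → ℂ) = T ((T ^ n) v)
      rw [ih]
  set b := ((Wu T).projectionOnto (Wc T) hc) (inc m v) with hb
  set a := ((Wc T).projectionOnto (Wu T) hc.symm) (inc m v) with ha
  have hsum : inc m v = (b : Fin m → ℂ) + (a : Fin m → ℂ) :=
    (Submodule.projection_add_projection_eq_self hc (inc m v)).symm
  refine ⟨re' (a : Fin m → ℂ), ⟨C₂ * ‖a‖, fun n => ?_⟩, re' (b : Fin m → ℂ),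
    ⟨|C₁| * ‖b‖, fun n => ?_⟩, ?_⟩
  · rw [← re_pow]
    refine (re_norm _).trans ?_
    have e1 := h2 n a
    have e2 : ‖((Tc T) ^ n) a‖ = ‖((cx A) ^ n) (a : Fin m → ℂ)‖ := by
      rw [← hT, ← hTc]
      rfl
    rw [← e2]
    refine e1.trans (mul_le_mul_of_nonneg_right ?_ (norm_nonneg _))
    exact mul_le_of_le_one_right hC₂ (pow_le_one₀ hl₂ hl₂'.le)
  · rw [← re_pow]
    refine (re_norm _).trans ?_
    have e1 := h1 n ⟨(T' ^ n) (b : Fin m → ℂ), hinvp (Wu T) (Wu_map T) n _ b.2⟩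
    have e2 : ((Tu T) ^ n) ⟨(T' ^ n) (b : Fin m → ℂ), hinvp (Wu T) (Wu_map T) n _ b.2⟩ = b := by
      apply Subtype.ext
      rw [hTu]
      exact hTpow n _
    rw [e2] at e1
    refine le_trans e1 ?_
    have h6 : 0 ≤ l₁ ^ n := pow_nonneg hl₁ n
    have h7 : l₁ ^ n ≤ 1 := pow_le_one₀ hl₁ hl₁'.le
    refine mul_le_mul_of_nonneg_right ?_ (norm_nonneg _)
    calc C₁ * l₁ ^ n ≤ |C₁| * l₁ ^ n := mul_le_mul_of_nonneg_right (le_abs_self _) h6
      _ ≤ |C₁| * 1 := mul_le_mul_of_nonneg_left h7 (abs_nonneg _)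
      _ = |C₁| := mul_one _
  · funext i
    have := congrArg (fun w : Fin m → ℂ => (w i).re) hsum
    simp only [Pi.add_apply, Complex.add_re] at this
    show v i = (((a : Fin m → ℂ) i).re) + (((b : Fin m → ℂ) i).re)
    rw [add_comm, ← this]
    show v i = ((v i : ℝ) : ℂ).re
    simp

theorem Bd_compl {A A' : Matrix (Fin m) (Fin m) ℤ} (h : A * A' = 1) (hA : HypMat A) :
    IsCompl (Bd A) (Bd A') := by
  refine ⟨?_, ?_⟩
  · rw [Submodule.disjoint_def]
    intro v h1 h2
    exact Bd_disj (mul_eq_one_comm.mp h) hA h1 h2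
  · rw [codisjoint_iff, eq_top_iff]
    rintro v -
    obtain ⟨a, ha, b, hb, rfl⟩ := Bd_sup h hA v
    exact Submodule.add_mem_sup ha hb

/-- bounded decomposition -/
theorem Bd_split {A A' : Matrix (Fin m) (Fin m) ℤ} (h : A * A' = 1) (hA : HypMat A) :
    ∃ C : ℝ, 1 ≤ C ∧ ∀ v : Fin m → ℝ, ∃ a ∈ Bd A, ∃ b ∈ Bd A', v = a + b ∧ ‖a‖ ≤ C * ‖v‖ ∧
      ‖b‖ ≤ C * ‖v‖ := by
  have hc := Bd_compl h hA
  set pa := LinearMap.toContinuousLinearMap ((Bd A).projectionOnto (Bd A') hc) with hpa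
  set pb := LinearMap.toContinuousLinearMap ((Bd A').projectionOnto (Bd A) hc.symm) with hpb
  refine ⟨max 1 (max ‖pa‖ ‖pb‖), le_max_left _ _, fun v => ⟨pa v, (pa v).2, pb v, (pb v).2, ?_, ?_,
    ?_⟩⟩
  · exact (Submodule.projection_add_projection_eq_self hc v).symm
  · exact (pa.le_opNorm v).trans (mul_le_mul_of_nonneg_right
      ((le_max_left _ _).trans (le_max_right _ _)) (norm_nonneg _))
  · exact (pb.le_opNorm v).trans (mul_le_mul_of_nonneg_right
      ((le_max_right _ _).trans (le_max_right _ _)) (norm_nonneg _))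

/-- density of `Bd A' + ℤᵐ`: every point is a limit of sums of lattice points and vectors with
bounded backward orbits. -/
theorem Bd_dense {A A' : Matrix (Fin m) (Fin m) ℤ} (h : A * A' = 1) (hA : HypMat A)
    (y : Fin m → ℝ) {ε : ℝ} (hε : 0 < ε) :
    ∃ (z : Fin m → ℤ), ∃ u ∈ Bd A', ‖y - ((fun i => (z i : ℝ)) + u)‖ < ε := by
  obtain ⟨C, hC, hsplit⟩ := Bd_split h hA
  obtain ⟨D, l, hD, hl, hl', hcon⟩ := Bd_contr (mul_eq_one_comm.mp h) hA
  have ht : Tendsto (fun n : ℕ => D * l ^ n * C) atTop (𝓝 0) := by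
    have := ((tendsto_pow_atTop_nhds_zero_of_lt_one hl.le hl').const_mul D).mul_const C
    simpa using this
  obtain ⟨n, hn⟩ := (ht.eventually (gt_mem_nhds hε)).exists
  set w := (am A')^[n] y with hw
  set r : Fin m → ℝ := fun i => Int.fract (w i) with hr
  have hr1 : ‖r‖ ≤ 1 := by
    rw [pi_norm_le_iff_of_nonneg zero_le_one]
    intro i
    rw [Real.norm_eq_abs, abs_of_nonneg (Int.fract_nonneg _)]
    exact (Int.fract_lt_one _).le
  set z₀ : Fin m → ℤ := fun i => ⌊w i⌋ with hz₀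
  have hwr : w = (fun i => (z₀ i : ℝ)) + r := by
    funext i
    exact (Int.floor_add_fract (w i)).symm
  obtain ⟨a, ha, b, hb, hab, hna, hnb⟩ := hsplit r
  have hint : ∀ (n : ℕ) (z : Fin m → ℤ), ∃ z' : Fin m → ℤ, (am A)^[n] (fun i => (z i : ℝ)) =
      fun i => (z' i : ℝ) := by
    intro n
    induction n with
    | zero => intro z; exact ⟨z, rfl⟩
    | succ n ih =>
      intro z
      obtain ⟨z', hz'⟩ := ih (fun i => ∑ j, A i j * z j)
      refine ⟨z', ?_⟩
      rw [Function.iterate_succ_apply, ← hz']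
      congr 1
      funext i
      simp [am]
  obtain ⟨z, hz⟩ := hint n z₀
  refine ⟨z, (am A)^[n] b, Bd_iter' (mul_eq_one_comm.mp h) n hb, ?_⟩
  have e1 : y = (am A)^[n] w := by rw [hw, iter_inv h]
  have e2 : y - ((fun i => (z i : ℝ)) + (am A)^[n] b) = (am A)^[n] a := by
    rw [e1, hwr, iter_add, hz, hab, iter_add]
    abel
  rw [e2]
  have e3 := hcon a ha n
  have e4 : ‖a‖ ≤ C := hna.trans (mul_le_of_le_one_right (zero_le_one.trans hC) hr1)
  calc ‖(am A)^[n] a‖ ≤ D * l ^ n * ‖a‖ := e3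
    _ ≤ D * l ^ n * C := mul_le_mul_of_nonneg_left e4 (by positivity)
    _ < ε := hn

/-- a matrix without nonzero bounded orbits is hyperbolic -/
theorem hyp_of_bdd {A A' : Matrix (Fin m) (Fin m) ℤ} (h : A * A' = 1)
    (hb : ∀ v : Fin m → ℝ, v ∈ Bd A → v ∈ Bd A' → v = 0) : HypMat A := by
  intro μ hμ hroot
  have hμ0 : μ ≠ 0 := by
    intro h0
    rw [h0, norm_zero] at hμ
    exact zero_ne_one hμ
  have h2 : (cx A).charpoly = (A.map (Int.castRingHom ℂ)).charpoly := Matrix.charpoly_toLin' _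
  have heig : (cx A).HasEigenvalue μ := by
    rw [Module.End.hasEigenvalue_iff_isRoot_charpoly, h2]
    exact hroot
  obtain ⟨w, hw⟩ := heig.exists_hasEigenvector
  have hw1 : cx A w = μ • w := hw.apply_eq_smul
  have hTT : ∀ w, cx A' (cx A w) = w := by
    intro w
    show Matrix.toLin' (A'.map (Int.cast : ℤ → ℂ)) (Matrix.toLin' (A.map (Int.cast : ℤ → ℂ)) w) = w
    rw [← LinearMap.comp_apply, ← Matrix.toLin'_mul]
    have h1 : A'.map (Int.cast : ℤ → ℂ) * A.map (Int.cast : ℤ → ℂ) = 1 := by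
      have h2 := congrArg (fun B : Matrix (Fin m) (Fin m) ℤ => B.map (Int.castRingHom ℂ))
        (mul_eq_one_comm.mp h)
      simp only [Matrix.map_mul] at h2
      rw [Matrix.map_one _ (map_zero _) (map_one _)] at h2
      exact h2
    rw [h1, Matrix.toLin'_one]
    rfl
  have key : ∀ c : ℂ, re' (c • w) ∈ Bd A ∧ re' (c • w) ∈ Bd A' := by
    intro c
    constructor
    · refine ⟨‖c • w‖, fun n => ?_⟩
      rw [← re_pow]
      refine (re_norm _).trans ?_
      have e1 : ((cx A) ^ n) w = μ ^ n • w := by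
        induction n with
        | zero => simp
        | succ n ih =>
          rw [pow_succ', Module.End.mul_apply, ih, map_smul, hw1, smul_smul, pow_succ]
      rw [map_smul, e1, norm_smul, norm_smul, norm_smul, norm_pow, hμ, one_pow, one_mul]
    · refine ⟨‖c • w‖, fun n => ?_⟩
      rw [← re_pow]
      refine (re_norm _).trans ?_
      have e0 : cx A' w = μ⁻¹ • w := by
        have := congrArg (fun x => μ⁻¹ • cx A' x) hw1
        simp only [map_smul, hTT, smul_smul, inv_mul_cancel₀ hμ0, one_smul] at this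
        exact this.symm
      have e1 : ((cx A') ^ n) w = μ⁻¹ ^ n • w := by
        induction n with
        | zero => simp
        | succ n ih =>
          rw [pow_succ', Module.End.mul_apply, ih, map_smul, e0, smul_smul, pow_succ]
      rw [map_smul, e1, norm_smul, norm_smul, norm_smul, norm_pow, norm_inv, hμ, inv_one, one_pow,
        one_mul]
  apply hw.2
  have h3 := hb _ (key 1).1 (key 1).2
  have h4 := hb _ (key (-Complex.I)).1 (key (-Complex.I)).2
  funext i
  apply Complex.ext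
  · have := congrFun h3 i
    simpa [re'] using this
  · have := congrFun h4 i
    simpa [re'] using this

end Pool.Agent.T9h69.CT
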