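import Mathlib

set_option autoImplicit false
set_option linter.unusedSectionVars false

/-! Closed subgroups of `ℝᵐ` containing `ℤᵐ`. -/

open Filter Topology Set Module

namespace Pool.Agent.T9h69.CT

variable {m : ℕ}

/-- the vectors that span lines in a subgroup -/
def lin (H : AddSubgroup (Fin m → ℝ)) : Submodule ℝ (Fin m → ℝ) where
  carrier := {v | ∀ t : ℝ, t • v ∈ H}
  add_mem' := by
    intro v w hv hw t
    rw [smul_add]
    exact H.add_mem (hv t) (hw t)
  zero_mem' := fun t => by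
    rw [smul_zero]
    exact H.zero_mem
  smul_mem' := by
    intro c v hv t
    rw [smul_smul]
    exact hv _

theorem mem_lin {H : AddSubgroup (Fin m → ℝ)} {v : Fin m → ℝ} :
    v ∈ lin H ↔ ∀ t : ℝ, t • v ∈ H := Iff.rfl

/-- small vectors of a closed subgroup in a complement of its lines vanish -/
theorem small_zero (H : AddSubgroup (Fin m → ℝ)) (hc : IsClosed (H : Set (Fin m → ℝ)))
    (W : Submodule ℝ (Fin m → ℝ)) (hd : Disjoint (lin H) W) :
    ∃ ε > 0, ∀ w : W, (w : Fin m → ℝ) ∈ H → ‖w‖ < ε → w = 0 := by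
  by_contra hcon
  push Not at hcon
  choose w hwH hwn hw0 using fun n : ℕ => hcon (1 / ((n : ℝ) + 1)) (by positivity)
  have hpos : ∀ n, 0 < ‖w n‖ := fun n => norm_pos_iff.mpr (hw0 n)
  have hlim : Tendsto (fun n => ‖w n‖) atTop (𝓝 0) :=
    squeeze_zero (fun n => (hpos n).le) (fun n => (hwn n).le) tendsto_one_div_add_atTop_nhds_zero_nat
  have hsph : ∀ n, (‖w n‖⁻¹ • w n) ∈ Metric.sphere (0 : W) 1 := by
    intro n
    rw [mem_sphere_zero_iff_norm, norm_smul, norm_inv, norm_norm, inv_mul_cancel₀ (hpos n).ne']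
  obtain ⟨e, he, φ, hφ, hφe⟩ := (isCompact_sphere (0 : W) 1).tendsto_subseq hsph
  have he1 : ‖e‖ = 1 := mem_sphere_zero_iff_norm.mp he
  have heV : ((e : W) : Fin m → ℝ) ∈ lin H := by
    intro t
    have h1 : Tendsto (fun n => ((⌊t / ‖w (φ n)‖⌋ • w (φ n) : W) : Fin m → ℝ)) atTop
        (𝓝 (t • (e : Fin m → ℝ))) := by
      have h2 : Tendsto (fun n => t • (‖w (φ n)‖⁻¹ • w (φ n)) -
          Int.fract (t / ‖w (φ n)‖) • w (φ n)) atTop (𝓝 (t • e)) := by
        have h3 : Tendsto (fun n => Int.fract (t / ‖w (φ n)‖) • w (φ n)) atTop (𝓝 0) := by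
          rw [tendsto_zero_iff_norm_tendsto_zero]
          refine squeeze_zero (fun n => norm_nonneg _) (fun n => ?_)
            (hlim.comp hφ.tendsto_atTop)
          rw [norm_smul, Real.norm_eq_abs, abs_of_nonneg (Int.fract_nonneg _)]
          exact mul_le_of_le_one_left (norm_nonneg _) (Int.fract_lt_one _).le
        have h4 := (hφe.const_smul t).sub h3
        rw [sub_zero] at h4
        exact h4
      have h5 := (continuous_subtype_val.tendsto (t • e)).comp h2
      refine h5.congr fun n => ?_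
      show ((t • (‖w (φ n)‖⁻¹ • w (φ n)) - Int.fract (t / ‖w (φ n)‖) • w (φ n) : W) :
        Fin m → ℝ) = _
      congr 1
      rw [smul_smul, ← sub_smul, ← Int.cast_smul_eq_zsmul ℝ]
      congr 1
      rw [← div_eq_mul_inv, Int.self_sub_fract]
    refine hc.mem_of_tendsto h1 (Eventually.of_forall fun n => ?_)
    show ((⌊t / ‖w (φ n)‖⌋ • w (φ n) : W) : Fin m → ℝ) ∈ H
    have h6 : ((⌊t / ‖w (φ n)‖⌋ • w (φ n) : W) : Fin m → ℝ) =
        ⌊t / ‖w (φ n)‖⌋ • (w (φ n) : Fin m → ℝ) := rfl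
    rw [h6]
    exact H.zsmul_mem (hwH _) _
  have h7 := Submodule.disjoint_def.mp hd _ heV e.2
  have h8 : e = 0 := Subtype.ext h7
  rw [h8, norm_zero] at he1
  exact zero_ne_one he1

theorem exists_q (H : AddSubgroup (Fin m → ℝ)) (hc : IsClosed (H : Set (Fin m → ℝ)))
    (hz : ∀ z : Fin m → ℤ, (fun i => (z i : ℝ)) ∈ H) :
    ∃ (k : ℕ) (q : (Fin m → ℝ) →ₗ[ℝ] (Fin k → ℝ)) (s : (Fin k → ℝ) →ₗ[ℝ] (Fin m → ℝ)),
      (∀ y, q (s y) = y) ∧ (∀ x, x - s (q x) ∈ lin H) ∧ (∀ x ∈ lin H, q x = 0) ∧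
      (∀ x ∈ H, ∃ z : Fin k → ℤ, q x = fun i => (z i : ℝ)) ∧
      (∀ z : Fin k → ℤ, s (fun i => (z i : ℝ)) ∈ H) := by
  obtain ⟨W, hW⟩ := Submodule.exists_isCompl (lin H)
  obtain ⟨ε, hε, hsmall⟩ := small_zero H hc W hW.disjoint
  set p := W.projectionOnto (lin H) hW.symm with hp
  have hpx : ∀ x, x - (p x : Fin m → ℝ) ∈ lin H := by
    intro x
    have h1 : ((p x : W) : Fin m → ℝ) + (((lin H).projectionOnto W hW) x : Fin m → ℝ) = x :=
      Submodule.projection_add_projection_eq_self hW.symm x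
    have h2 : x - (p x : Fin m → ℝ) = (((lin H).projectionOnto W hW) x : Fin m → ℝ) := by
      rw [sub_eq_iff_eq_add, add_comm]
      exact h1.symm
    rw [h2]
    exact Subtype.mem _
  have hlinH : ∀ x ∈ lin H, x ∈ H := by
    intro x hx
    have := hx 1
    rwa [one_smul] at this
  have hpH : ∀ x ∈ H, (p x : Fin m → ℝ) ∈ H := by
    intro x hx
    have h1 := H.sub_mem hx (hlinH _ (hpx x))
    rwa [sub_sub_cancel] at h1
  let L : Submodule ℤ W := AddSubgroup.toIntSubmodule
    (H.comap (W.subtype.toAddMonoidHom))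
  have hL : ∀ w : W, w ∈ L ↔ (w : Fin m → ℝ) ∈ H := fun w => Iff.rfl
  have hdisc : DiscreteTopology L := by
    refine discreteTopology_of_isOpen_singleton_zero ?_
    rw [Metric.isOpen_singleton_iff]
    refine ⟨ε, hε, fun w hw => ?_⟩
    apply Subtype.ext
    refine hsmall (w : W) ((hL _).mp w.2) ?_
    rw [dist_zero_right] at hw
    exact hw
  have hlat : IsZLattice ℝ L := by
    refine ⟨?_⟩
    rw [eq_top_iff]
    rintro w -
    have h1 : w = p (w : Fin m → ℝ) := (Submodule.projectionOnto_apply_left hW.symm w).symm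
    have h2 : (w : Fin m → ℝ) = ∑ i, (w : Fin m → ℝ) i • (Pi.single i (1 : ℝ) : Fin m → ℝ) := by
      funext j
      simp [Finset.sum_apply, Pi.single_apply]
    rw [h1, h2, map_sum]
    refine Submodule.sum_mem _ fun i _ => ?_
    rw [map_smul]
    refine Submodule.smul_mem _ _ (Submodule.subset_span ?_)
    show p (Pi.single i 1) ∈ L
    rw [hL]
    apply hpH
    have h3 := hz (Pi.single i 1)
    convert h3 using 1
    funext j
    by_cases hij : j = i
    · subst hij; simp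
    · simp [Pi.single_apply, hij]
  have hfree : Module.Free ℤ L := ZLattice.module_free ℝ L
  have hfin : Module.Finite ℤ L := ZLattice.module_finite ℝ L
  let b : Basis (Fin (finrank ℤ L)) ℤ L := Module.finBasis ℤ L
  let B : Basis (Fin (finrank ℤ L)) ℝ W := b.ofZLatticeBasis ℝ L
  refine ⟨finrank ℤ L, B.equivFun.toLinearMap ∘ₗ p, W.subtype ∘ₗ B.equivFun.symm.toLinearMap,
    fun y => ?_, fun x => ?_, fun x hx => ?_, fun x hx => ?_, fun z => ?_⟩
  · show B.equivFun (p ((B.equivFun.symm y : W) : Fin m → ℝ)) = y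
    rw [Submodule.projectionOnto_apply_left hW.symm, LinearEquiv.apply_symm_apply]
  · show x - ((B.equivFun.symm (B.equivFun (p x)) : W) : Fin m → ℝ) ∈ lin H
    rw [LinearEquiv.symm_apply_apply]
    exact hpx x
  · show B.equivFun (p x) = 0
    rw [(Submodule.projectionOnto_apply_eq_zero_iff hW.symm).mpr hx, map_zero]
  · have h1 : p x ∈ L := (hL _).mpr (hpH x hx)
    refine ⟨fun i => b.repr ⟨p x, h1⟩ i, ?_⟩
    funext i
    show B.repr (p x) i = _
    exact Basis.ofZLatticeBasis_repr_apply ℝ L b ⟨p x, h1⟩ i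
  · have h1 : B.equivFun.symm (fun i => (z i : ℝ)) = ((∑ i, z i • b i : L) : W) := by
      rw [Basis.equivFun_symm_apply]
      push_cast
      refine Finset.sum_congr rfl fun i _ => ?_
      rw [← Int.cast_smul_eq_zsmul ℝ]
      congr 1
      exact Basis.ofZLatticeBasis_apply ℝ L b i
    show ((B.equivFun.symm (fun i => (z i : ℝ)) : W) : Fin m → ℝ) ∈ H
    rw [h1]
    exact (hL _).mp (Subtype.mem _)

end Pool.Agent.T9h69.CT
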