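import Pool.Agent.T9h69.CT.A1
import Pool.Agent.T9h69.CT.B1

set_option autoImplicit false
set_option linter.unusedSectionVars false

/-! Reduction to a lift whose stabilizer is the lattice. -/

open Filter Topology Set Module

namespace Pool.Agent.T9h69.CT

open Pool.Agent.W740.TC Pool.Agent.H779R2.To

variable {m : ℕ}

/-- the real vector of an integer vector -/
def zr (z : Fin m → ℤ) : Fin m → ℝ := fun i => (z i : ℝ)

theorem zr_add (z w : Fin m → ℤ) : zr (z + w) = zr z + zr w := by
  funext i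
  simp [zr]

theorem zr_neg (z : Fin m → ℤ) : zr (-z) = -zr z := by
  funext i
  simp [zr]

theorem zr_sub (z w : Fin m → ℤ) : zr (z - w) = zr z - zr w := by
  funext i
  simp [zr]

theorem zr_inj {z w : Fin m → ℤ} (h : zr z = zr w) : z = w := by
  funext i
  have h1 : ((z i : ℤ) : ℝ) = ((w i : ℤ) : ℝ) := congrFun h i
  exact_mod_cast h1

theorem zr_single (j : Fin m) : zr (Pi.single j (1 : ℤ)) = Pi.single j (1 : ℝ) := by
  funext i
  by_cases hij : i = j
  · subst hij; simp [zr]
  · simp [zr, hij]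

theorem am_zr (A : Matrix (Fin m) (Fin m) ℤ) (z : Fin m → ℤ) : am A (zr z) = zr (A.mulVec z) := by
  funext i
  simp [am, zr, Matrix.mulVec, dotProduct]

/-- the linear map of an integer matrix -/
noncomputable def amL (A : Matrix (Fin m) (Fin m) ℤ) : (Fin m → ℝ) →ₗ[ℝ] (Fin m → ℝ) where
  toFun := am A
  map_add' := am_add A
  map_smul' c v := am_smul A c v

theorem amL_apply (A : Matrix (Fin m) (Fin m) ℤ) (x : Fin m → ℝ) : amL A x = am A x := rfl

theorem sum_single (x : Fin m → ℝ) : x = ∑ i, x i • (Pi.single i (1 : ℝ) : Fin m → ℝ) := by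
  funext j
  simp [Finset.sum_apply, Pi.single_apply]

theorem exists_int (g : (Fin m → ℝ) →ₗ[ℝ] (Fin m → ℝ))
    (h : ∀ z : Fin m → ℤ, ∃ z' : Fin m → ℤ, g (zr z) = zr z') :
    ∃ G : Matrix (Fin m) (Fin m) ℤ, ∀ x, g x = am G x := by
  choose c hc using fun j : Fin m => h (Pi.single j 1)
  refine ⟨fun i j => c j i, fun x => ?_⟩
  conv_lhs => rw [sum_single x, map_sum]
  funext i
  rw [Finset.sum_apply]
  show _ = ∑ j, ((c j i : ℤ) : ℝ) * x j
  refine Finset.sum_congr rfl fun j _ => ?_
  rw [map_smul, ← zr_single, hc]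
  show x j * (c j i : ℝ) = _
  ring

theorem eq_one_of_am {G : Matrix (Fin m) (Fin m) ℤ} (h : ∀ x, am G x = x) : G = 1 := by
  ext i j
  have h1 := congrFun (h (zr (Pi.single j 1))) i
  rw [am_zr] at h1
  have h2 : (G.mulVec (Pi.single j 1)) i = (Pi.single j 1 : Fin m → ℤ) i := by
    have h3 : ((G.mulVec (Pi.single j 1)) i : ℝ) = ((Pi.single j 1 : Fin m → ℤ) i : ℝ) := h1
    exact_mod_cast h3
  rw [Matrix.mulVec_single_one] at h2
  have h4 : G i j = (Pi.single j 1 : Fin m → ℤ) i := h2
  rw [h4, Matrix.one_apply, Pi.single_apply]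

variable {X : Type*} [TopologicalSpace X]

/-- the stabilizer -/
def stab (P : (Fin m → ℝ) → X) : AddSubgroup (Fin m → ℝ) where
  carrier := {v | ∀ x, P (x + v) = P x}
  add_mem' := by
    intro v w hv hw x
    rw [← add_assoc, hw, hv]
  zero_mem' := fun x => by rw [add_zero]
  neg_mem' := by
    intro v hv x
    have := hv (x + -v)
    rw [neg_add_cancel_right] at this
    exact this.symm

theorem mem_stab {P : (Fin m → ℝ) → X} {v : Fin m → ℝ} : v ∈ stab P ↔ ∀ x, P (x + v) = P x :=
  Iff.rfl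

theorem stab_closed [T2Space X] {P : (Fin m → ℝ) → X} (hP : Continuous P) :
    IsClosed (stab P : Set (Fin m → ℝ)) := by
  have h1 : (stab P : Set (Fin m → ℝ)) = ⋂ x, {v | P (x + v) = P x} := by
    ext v
    simp [mem_stab]
  rw [h1]
  refine isClosed_iInter fun x => isClosed_eq ?_ continuous_const
  exact hP.comp (continuous_const.add continuous_id)

/-- every vector is the sum of a vector killed by a power of `A` and a vector in the range -/
theorem fitting (A : Matrix (Fin m) (Fin m) ℤ) (y : Fin m → ℝ) :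
    ∃ (n : ℕ) (κ w : Fin m → ℝ), (am A)^[n] κ = 0 ∧ y = κ + am A w := by
  obtain ⟨N, hN⟩ := eventually_atTop.mp (amL A).eventually_isCompl_ker_pow_range_pow
  have h1 := hN (N + 1) (Nat.le_succ N)
  have h2 : y ∈ (LinearMap.ker ((amL A) ^ (N + 1)) ⊔ LinearMap.range ((amL A) ^ (N + 1)) :
      Submodule ℝ (Fin m → ℝ)) := by
    rw [h1.sup_eq_top]
    exact Submodule.mem_top
  obtain ⟨κ, hκ, w, ⟨u, hu⟩, hy⟩ := Submodule.mem_sup.mp h2
  refine ⟨N + 1, κ, ((amL A) ^ N) u, ?_, ?_⟩
  · rw [LinearMap.mem_ker, Module.End.pow_apply] at hκ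
    exact hκ
  · rw [← hy, ← hu, pow_succ', Module.End.mul_apply]
    rfl

/-- reduction to a lift whose stabilizer is the lattice; `A` is an arbitrary integer matrix. -/
theorem reduce [T2Space X] (f : X → X) (hfi : Function.Injective f)
    (A : Matrix (Fin m) (Fin m) ℤ) (b : Fin m → ℝ) (P : (Fin m → ℝ) → X)
    (hP : Continuous P) (hs : Function.Surjective P) (hz : ∀ x z, P (x + zr z) = P x)
    (hf : ∀ x, f (P x) = P (am A x + b)) :
    ∃ (k : ℕ) (B B' : Matrix (Fin k) (Fin k) ℤ) (c : Fin k → ℝ) (Q : (Fin k → ℝ) → X),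
      B * B' = 1 ∧ Continuous Q ∧ Function.Surjective Q ∧ (∀ y z, Q (y + zr z) = Q y) ∧
      (∀ w, (∀ y, Q (y + w) = Q y) → ∃ z, w = zr z) ∧ ∀ y, f (Q y) = Q (am B y + c) := by
  obtain ⟨k, q, s, h1, h2, h3, h4, h5⟩ := exists_q (stab P) (stab_closed hP)
    (fun z x => hz x z)
  have hback : ∀ v, am A v ∈ stab P → v ∈ stab P := by
    intro v hv x
    apply hfi
    rw [hf, hf, am_add]
    have := hv (am A x + b)
    rw [← this]
    congr 1
    abel
  have hker : ∀ (n : ℕ) v, (am A)^[n] v = 0 → v ∈ stab P := by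
    intro n
    induction n with
    | zero =>
      intro v hv
      have hv' : v = 0 := hv
      rw [hv']
      exact (stab P).zero_mem
    | succ n ih =>
      intro v hv
      rw [Function.iterate_succ_apply] at hv
      exact hback _ (ih _ hv)
  have hmapA : ∀ v ∈ stab P, am A v ∈ stab P := by
    intro v hv y
    obtain ⟨n, κ, w, hκ, hy⟩ := fitting A (y - b)
    have hκs : κ ∈ stab P := hker n κ hκ
    have e1 : y = am A w + b + κ := by
      rw [eq_add_of_sub_eq hy]
      abel
    have e2 : y + am A v = am A (w + v) + b + κ := by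
      rw [e1, am_add]
      abel
    rw [e2, hκs, ← hf, hv, hf, e1, hκs]
  have hlinA : ∀ v ∈ lin (stab P), am A v ∈ lin (stab P) := by
    intro v hv t
    rw [← am_smul]
    exact hmapA _ (hv t)
  have hlinH : ∀ x ∈ lin (stab P), x ∈ stab P := by
    intro x hx
    have := hx 1
    rwa [one_smul] at this
  obtain ⟨B, hB⟩ := exists_int (q ∘ₗ amL A ∘ₗ s) (fun z => by
    obtain ⟨z', hz'⟩ := h4 _ (hmapA _ (h5 z))
    exact ⟨z', hz'⟩)
  have hB1 : ∀ x, q (am A (s x)) = am B x := fun x => hB x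
  -- `B` is injective modulo the lattice
  have hBinj : ∀ y, (∃ z, am B y = zr z) → ∃ z, y = zr z := by
    rintro y ⟨z, hyz⟩
    have e1 : am A (s y) ∈ stab P := by
      have e2 := hlinH _ (h2 (am A (s y)))
      rw [hB1, hyz] at e2
      have e3 := (stab P).add_mem e2 (h5 z)
      have e4 : am A (s y) - s (zr z) + (s fun i => (z i : ℝ)) = am A (s y) :=
        sub_add_cancel _ _
      rwa [e4] at e3
    obtain ⟨z', hz'⟩ := h4 _ (hback _ e1)
    exact ⟨z', by rw [h1] at hz'; exact hz'⟩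
  have hBker : ∀ y, am B y = 0 → y = 0 := by
    intro y hy
    by_contra hne
    have hpos : 0 < ‖y‖ := norm_pos_iff.mpr hne
    obtain ⟨z, hz'⟩ := hBinj ((2 * ‖y‖)⁻¹ • y) ⟨0, by
      rw [am_smul, hy, smul_zero]
      funext i
      simp [zr]⟩
    have e1 : ‖(2 * ‖y‖)⁻¹ • y‖ = 1 / 2 := by
      rw [norm_smul, norm_inv, Real.norm_of_nonneg (by positivity)]
      field_simp
    rw [hz'] at e1
    have e2 : ∀ i, z i = 0 := by
      intro i
      have e3 : ‖zr z i‖ ≤ 1 / 2 := (norm_le_pi_norm (zr z) i).trans e1.le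
      have e4 : |((z i : ℤ) : ℝ)| ≤ 1 / 2 := e3
      have e5 : |((z i : ℤ) : ℝ)| < 1 := by linarith
      have e6 : |z i| < 1 := by exact_mod_cast e5
      exact Int.abs_lt_one_iff.mp e6
    have e7 : zr z = 0 := by
      funext i
      show ((z i : ℤ) : ℝ) = 0
      rw [e2 i]
      simp
    rw [e7, norm_zero] at e1
    norm_num at e1
  have hinj : Function.Injective (amL B) := by
    rw [injective_iff_map_eq_zero]
    exact hBker
  let e : (Fin k → ℝ) ≃ₗ[ℝ] (Fin k → ℝ) := LinearEquiv.ofInjectiveEndo (amL B) hinj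
  have he : ∀ y, am B (e.symm y) = y := fun y => e.apply_symm_apply y
  obtain ⟨B', hB'⟩ := exists_int e.symm.toLinearMap (fun z => by
    exact hBinj (e.symm (zr z)) ⟨z, he _⟩)
  have hqA : ∀ x, q (am A x) = am B (q x) := by
    intro x
    rw [← hB1, ← sub_eq_zero, ← map_sub, ← am_sub]
    exact h3 _ (hlinA _ (h2 x))
  have hQ : ∀ x, P (s (q x)) = P x := by
    intro x
    have := hlinH _ (h2 x) (s (q x))
    rw [← this]
    congr 1
    abel
  have hsc : Continuous s := LinearMap.continuous_of_finiteDimensional s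
  refine ⟨k, B, B', q b, fun y => P (s y), ?_, hP.comp hsc, fun x => ?_, fun y z => ?_,
    fun w hw => ?_, fun y => ?_⟩
  · apply eq_one_of_am
    intro x
    rw [am_comp, ← hB']
    exact he x
  · obtain ⟨y, rfl⟩ := hs x
    exact ⟨q y, hQ y⟩
  · show P (s (y + zr z)) = P (s y)
    rw [map_add]
    exact h5 z (s y)
  · have h6 : s w ∈ stab P := by
      intro x
      have h7 := hw (q x)
      have h8 : P (s (q x + w)) = P (s (q x)) := h7
      have h9 : P (s (q (x + s w))) = P (x + s w) := hQ _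
      rw [map_add, h1, h8, hQ] at h9
      exact h9.symm
    obtain ⟨z, hz'⟩ := h4 _ h6
    refine ⟨z, ?_⟩
    rw [h1] at hz'
    exact hz'
  · show f (P (s y)) = P (s (am B y + q b))
    rw [hf, ← hB1, ← map_add, hQ]

end Pool.Agent.T9h69.CT
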