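import Pool.Agent.T9h69.CT.B2

set_option autoImplicit false
set_option linter.unusedSectionVars false

/-! Expansive factors: the lift is locally injective. -/

open Filter Topology Set Metric

namespace Pool.Agent.T9h69.CT

open Pool.Agent.W740.TC Pool.Agent.H779R2.To

variable {k : ℕ} {X : Type*} [MetricSpace X]

theorem zr_small {z : Fin k → ℤ} (h : ‖zr z‖ < 1) : zr z = 0 := by
  funext i
  have h1 : ‖zr z i‖ < 1 := (norm_le_pi_norm (zr z) i).trans_lt h
  have h2 : |((z i : ℤ) : ℝ)| < 1 := h1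
  have h3 : |z i| < 1 := by exact_mod_cast h2
  have h4 : z i = 0 := Int.abs_lt_one_iff.mp h3
  show ((z i : ℤ) : ℝ) = 0
  rw [h4]
  simp

/-- decomposition into integer and fractional part -/
theorem zr_fract (y : Fin k → ℝ) : ∃ (z : Fin k → ℤ) (r : Fin k → ℝ), y = r + zr z ∧ ‖r‖ ≤ 1 := by
  refine ⟨fun i => ⌊y i⌋, fun i => Int.fract (y i), ?_, ?_⟩
  · funext i
    show y i = Int.fract (y i) + (⌊y i⌋ : ℝ)
    exact (Int.fract_add_floor _).symm
  · rw [pi_norm_le_iff_of_nonneg zero_le_one]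
    intro i
    rw [Real.norm_eq_abs, abs_of_nonneg (Int.fract_nonneg _)]
    exact (Int.fract_lt_one _).le

/-- periodic continuous maps are uniformly continuous -/
theorem unif_cont {Q : (Fin k → ℝ) → X} (hQ : Continuous Q) (hz : ∀ y z, Q (y + zr z) = Q y)
    {ε : ℝ} (hε : 0 < ε) : ∃ δ > 0, ∀ y v, ‖v‖ < δ → dist (Q (y + v)) (Q y) < ε := by
  have h1 := (isCompact_closedBall (0 : Fin k → ℝ) 2).uniformContinuousOn_of_continuous
    hQ.continuousOn
  rw [Metric.uniformContinuousOn_iff] at h1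
  obtain ⟨δ, hδ, h2⟩ := h1 ε hε
  refine ⟨min δ 1, lt_min hδ one_pos, fun y v hv => ?_⟩
  obtain ⟨z, r, rfl, hr⟩ := zr_fract y
  have e1 : r + zr z + v = (r + v) + zr z := by abel
  rw [e1, hz, hz]
  apply h2
  · rw [mem_closedBall_zero_iff]
    have := norm_add_le r v
    have := (lt_min_iff.mp hv).2
    linarith
  · rw [mem_closedBall_zero_iff]
    linarith
  · rw [dist_eq_norm, add_sub_cancel_left]
    exact (lt_min_iff.mp hv).1

/-- expansivity -/
def Exp (f : X ≃ₜ X) (ε : ℝ) : Prop :=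
  ∀ x y, (∀ n : ℕ, dist (f^[n] x) (f^[n] y) < ε ∧ dist (f.symm^[n] x) (f.symm^[n] y) < ε) → x = y

theorem aff_iter_add (B : Matrix (Fin k) (Fin k) ℤ) (c : Fin k → ℝ) (n : ℕ) (y v : Fin k → ℝ) :
    (fun x => am B x + c)^[n] (y + v) = (fun x => am B x + c)^[n] y + (am B)^[n] v := by
  induction n generalizing y v with
  | zero => rfl
  | succ n ih =>
    rw [Function.iterate_succ_apply, Function.iterate_succ_apply, Function.iterate_succ_apply]
    rw [← ih, am_add]
    congr 1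
    abel

/-- no bounded orbits -/
theorem bdd_zero {f : X ≃ₜ X} {ε : ℝ} (hε : 0 < ε) (hexp : Exp f ε)
    {B B' : Matrix (Fin k) (Fin k) ℤ} (hBB : B * B' = 1) {c : Fin k → ℝ} {Q : (Fin k → ℝ) → X}
    (hQ : Continuous Q) (hz : ∀ y z, Q (y + zr z) = Q y)
    (hst : ∀ w, (∀ y, Q (y + w) = Q y) → ∃ z, w = zr z)
    (hf : ∀ y, f (Q y) = Q (am B y + c)) {v : Fin k → ℝ} (h1 : v ∈ Bd B) (h2 : v ∈ Bd B') :
    v = 0 := by
  obtain ⟨δ, hδ, hunif⟩ := unif_cont hQ hz hε
  obtain ⟨K, hK⟩ := h1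
  obtain ⟨K', hK'⟩ := h2
  have hK0 : 0 ≤ K := (norm_nonneg _).trans (hK 0)
  have hK0' : 0 ≤ K' := (norm_nonneg _).trans (hK' 0)
  have hf' : ∀ y, f.symm (Q y) = Q (am B' y + am B' (-c)) := by
    intro y
    rw [Homeomorph.symm_apply_eq, hf]
    congr 1
    rw [am_add, am_inv hBB, am_inv hBB]
    abel
  have hit : ∀ n y, f^[n] (Q y) = Q ((fun x => am B x + c)^[n] y) := by
    intro n
    induction n with
    | zero => intro y; rfl
    | succ n ih =>
      intro y
      rw [Function.iterate_succ_apply, hf, ih]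
      rfl
  have hit' : ∀ n y, f.symm^[n] (Q y) = Q ((fun x => am B' x + am B' (-c))^[n] y) := by
    intro n
    induction n with
    | zero => intro y; rfl
    | succ n ih =>
      intro y
      rw [Function.iterate_succ_apply, hf', ih]
      rfl
  obtain ⟨t, ht0, ht⟩ : ∃ t : ℝ, 0 < t ∧ t * (K + K' + ‖v‖ + 1) < min δ 1 := by
    have h3 : 0 < K + K' + ‖v‖ + 1 := by positivity
    refine ⟨min δ 1 / 2 / (K + K' + ‖v‖ + 1), by positivity, ?_⟩
    rw [div_mul_cancel₀ _ h3.ne']
    have : 0 < min δ 1 := lt_min hδ one_pos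
    linarith
  have hn : ∀ w : Fin k → ℝ, ‖w‖ ≤ K + K' + ‖v‖ + 1 → ‖t • w‖ < min δ 1 := by
    intro w hw
    rw [norm_smul, Real.norm_eq_abs, abs_of_pos ht0]
    exact (mul_le_mul_of_nonneg_left hw ht0.le).trans_lt ht
  have hper : ∀ y, Q (y + t • v) = Q y := by
    intro y
    apply hexp
    intro n
    constructor
    · rw [hit, hit, aff_iter_add, iter_smul]
      apply hunif
      refine (hn _ ?_).trans_le (min_le_left _ _)
      have := hK n
      have := norm_nonneg v
      linarith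
    · rw [hit', hit', aff_iter_add, iter_smul]
      apply hunif
      refine (hn _ ?_).trans_le (min_le_left _ _)
      have := hK' n
      have := norm_nonneg v
      linarith
  obtain ⟨z, hz'⟩ := hst _ hper
  have h3 : ‖t • v‖ < 1 := (hn v (by linarith)).trans_le (min_le_right _ _)
  have h4 : t • v = 0 := by
    rw [hz'] at h3 ⊢
    exact zr_small h3
  exact (smul_eq_zero.mp h4).resolve_left ht0.ne'

/-- the data of an expansive factor of a toral automorphism -/
structure Fac (X : Type*) [MetricSpace X] (k : ℕ) where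
  f : X ≃ₜ X
  B : Matrix (Fin k) (Fin k) ℤ
  B' : Matrix (Fin k) (Fin k) ℤ
  hBB : B * B' = 1
  hyp : HypMat B
  Q : (Fin k → ℝ) → X
  cont : Continuous Q
  per : ∀ y z, Q (y + zr z) = Q y
  st : ∀ w, (∀ y, Q (y + w) = Q y) → ∃ z, w = zr z
  semi : ∀ y, f (Q y) = Q (am B y)
  ε : ℝ
  hε : 0 < ε
  exp : Exp f ε

/-- the inverse -/
def Fac.symm (D : Fac X k) : Fac X k where
  f := D.f.symm
  B := D.B'
  B' := D.B
  hBB := mul_eq_one_comm.mp D.hBB
  hyp := hyp_inv D.hBB D.hyp
  Q := D.Q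
  cont := D.cont
  per := D.per
  st := D.st
  semi := fun y => by
    rw [Homeomorph.symm_apply_eq, D.semi, am_inv D.hBB]
  ε := D.ε
  hε := D.hε
  exp := fun x y h => D.exp x y fun n => ⟨(h n).2, (h n).1⟩

theorem Fac.iter (D : Fac X k) (n : ℕ) (y : Fin k → ℝ) : D.f^[n] (D.Q y) = D.Q ((am D.B)^[n] y) := by
  induction n generalizing y with
  | zero => rfl
  | succ n ih => rw [Function.iterate_succ_apply, D.semi, ih, Function.iterate_succ_apply]

theorem Fac.iter' (D : Fac X k) (n : ℕ) (y : Fin k → ℝ) :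
    D.f.symm^[n] (D.Q y) = D.Q ((am D.B')^[n] y) := D.symm.iter n y

/-- exact coincidences along stable directions are trivial -/
theorem Fac.key (D : Fac X k) : ∃ δ > 0, ∀ v ∈ Bd D.B, ‖v‖ < δ → ∀ x, D.Q (x + v) = D.Q x →
    v = 0 := by
  obtain ⟨δ, hδ, hunif⟩ := unif_cont D.cont D.per (half_pos D.hε)
  have hBB' : D.B' * D.B = 1 := mul_eq_one_comm.mp D.hBB
  obtain ⟨C, l, hC, hl, hl', hcon⟩ := Bd_contr hBB' D.hyp
  obtain ⟨C', m, hC', hm, hm', hcon'⟩ := Bd_contr D.hBB (hyp_inv D.hBB D.hyp)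
  have hs : ∀ v ∈ Bd D.B, ‖v‖ < δ / C → ∀ n, ‖(am D.B)^[n] v‖ < δ := by
    intro v hv hvn n
    have h1 := hcon v hv n
    have h2 : C * l ^ n * ‖v‖ ≤ C * ‖v‖ := by
      refine mul_le_mul_of_nonneg_right ?_ (norm_nonneg _)
      exact mul_le_of_le_one_right (by linarith) (pow_le_one₀ hl.le hl'.le)
    rw [lt_div_iff₀ (by linarith)] at hvn
    linarith
  have hu : ∀ v ∈ Bd D.B', ‖v‖ < δ / C' → ∀ n, ‖(am D.B')^[n] v‖ < δ := by
    intro v hv hvn n
    have h1 := hcon' v hv n
    have h2 : C' * m ^ n * ‖v‖ ≤ C' * ‖v‖ := by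
      refine mul_le_mul_of_nonneg_right ?_ (norm_nonneg _)
      exact mul_le_of_le_one_right (by linarith) (pow_le_one₀ hm.le hm'.le)
    rw [lt_div_iff₀ (by linarith)] at hvn
    linarith
  refine ⟨min (δ / C) 1, lt_min (by positivity) one_pos, fun v hv hvn x hx => ?_⟩
  have hvn1 := (lt_min_iff.mp hvn).1
  -- small steps
  have hstep : ∀ x, D.Q (x + v) = D.Q x → ∀ u ∈ Bd D.B', ‖u‖ < δ / C' →
      D.Q (x + u + v) = D.Q (x + u) := by
    intro x hx u hu1 hu2
    apply D.exp
    intro n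
    constructor
    · rw [D.iter, D.iter, iter_add]
      exact (hunif _ _ (hs v hv hvn1 n)).trans (half_lt_self D.hε)
    · rw [D.iter', D.iter']
      have e1 : x + u + v = (x + v) + u := by abel
      rw [e1, iter_add _ n (x + v) u, iter_add _ n x u]
      have h3 := hunif ((am D.B')^[n] (x + v)) _ (hu u hu1 hu2 n)
      have h4 := hunif ((am D.B')^[n] x) _ (hu u hu1 hu2 n)
      have h5 : D.Q ((am D.B')^[n] (x + v)) = D.Q ((am D.B')^[n] x) := by
        rw [← D.iter', ← D.iter', hx]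
      rw [dist_comm] at h4
      rw [h5] at h3
      have := dist_triangle (D.Q ((am D.B')^[n] (x + v) + (am D.B')^[n] u))
        (D.Q ((am D.B')^[n] x)) (D.Q ((am D.B')^[n] x + (am D.B')^[n] u))
      linarith
  -- all unstable vectors
  have hall : ∀ u ∈ Bd D.B', D.Q (x + u + v) = D.Q (x + u) := by
    intro u hu1
    obtain ⟨N, hN⟩ := exists_nat_gt (‖u‖ / (δ / C'))
    have hN0 : (0 : ℝ) < N := lt_of_le_of_lt (by positivity) hN
    set w := (N : ℝ)⁻¹ • u with hw
    have hw1 : w ∈ Bd D.B' := Submodule.smul_mem _ _ hu1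
    have hw2 : ‖w‖ < δ / C' := by
      rw [hw, norm_smul, norm_inv, Real.norm_natCast, inv_mul_lt_iff₀ hN0]
      rwa [div_lt_iff₀ (by positivity)] at hN
    have hj : ∀ j : ℕ, D.Q (x + (j : ℝ) • w + v) = D.Q (x + (j : ℝ) • w) := by
      intro j
      induction j with
      | zero =>
        rw [Nat.cast_zero, zero_smul, add_zero]
        exact hx
      | succ j ih =>
        have h6 := hstep _ ih w hw1 hw2
        have e2 : x + ((j + 1 : ℕ) : ℝ) • w = x + (j : ℝ) • w + w := by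
          rw [Nat.cast_add, Nat.cast_one, add_smul, one_smul]
          abel
        rw [e2]
        exact h6
    have h7 := hj N
    have e3 : (N : ℝ) • w = u := by
      rw [hw, smul_smul, mul_inv_cancel₀ hN0.ne', one_smul]
    rw [e3] at h7
    exact h7
  have hfull : ∀ y, D.Q (y + v) = D.Q y := by
    intro y
    have hcl : IsClosed {y | D.Q (y + v) = D.Q y} := by
      refine isClosed_eq ?_ D.cont
      exact D.cont.comp (continuous_id.add continuous_const)
    have hmem : y ∈ closure {y | D.Q (y + v) = D.Q y} := by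
      rw [Metric.mem_closure_iff]
      intro r hr
      obtain ⟨z, u, hu1, hu2⟩ := Bd_dense D.hBB D.hyp (y - x) hr
      refine ⟨x + u + zr z, ?_, ?_⟩
      · show D.Q (x + u + zr z + v) = D.Q (x + u + zr z)
        have e4 : x + u + zr z + v = x + u + v + zr z := by abel
        rw [e4, D.per, D.per]
        exact hall u hu1
      · rw [dist_eq_norm]
        have e5 : y - (x + u + zr z) = y - x - ((fun i => (z i : ℝ)) + u) := by
          show y - (x + u + zr z) = y - x - (zr z + u)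
          abel
        rw [e5]
        exact hu2
    rw [hcl.closure_eq] at hmem
    exact hmem
  obtain ⟨z, hz⟩ := D.st v hfull
  have h8 : ‖v‖ < 1 := (lt_min_iff.mp hvn).2
  rw [hz] at h8 ⊢
  exact zr_small h8

/-- **the lift is uniformly locally injective** -/
theorem Fac.loc_inj (D : Fac X k) : ∃ δ > 0, ∀ x v, ‖v‖ < δ → D.Q (x + v) = D.Q x → v = 0 := by
  obtain ⟨δ, hδ, hunif⟩ := unif_cont D.cont D.per D.hε
  have hBB' : D.B' * D.B = 1 := mul_eq_one_comm.mp D.hBB
  obtain ⟨C, l, hC, hl, hl', hcon⟩ := Bd_contr hBB' D.hyp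
  obtain ⟨C', m, hC', hm, hm', hcon'⟩ := Bd_contr D.hBB (hyp_inv D.hBB D.hyp)
  obtain ⟨K, hK, hsplit⟩ := Bd_split D.hBB D.hyp
  obtain ⟨δ₁, hδ₁, hk1⟩ := D.key
  obtain ⟨δ₂, hδ₂, hk2⟩ := D.symm.key
  have hs : ∀ v ∈ Bd D.B, ‖v‖ < δ / C → ∀ n, ‖(am D.B)^[n] v‖ < δ := by
    intro v hv hvn n
    have h1 := hcon v hv n
    have h2 : C * l ^ n * ‖v‖ ≤ C * ‖v‖ := by
      refine mul_le_mul_of_nonneg_right ?_ (norm_nonneg _)
      exact mul_le_of_le_one_right (by linarith) (pow_le_one₀ hl.le hl'.le)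
    rw [lt_div_iff₀ (by linarith)] at hvn
    linarith
  have hu : ∀ v ∈ Bd D.B', ‖v‖ < δ / C' → ∀ n, ‖(am D.B')^[n] v‖ < δ := by
    intro v hv hvn n
    have h1 := hcon' v hv n
    have h2 : C' * m ^ n * ‖v‖ ≤ C' * ‖v‖ := by
      refine mul_le_mul_of_nonneg_right ?_ (norm_nonneg _)
      exact mul_le_of_le_one_right (by linarith) (pow_le_one₀ hm.le hm'.le)
    rw [lt_div_iff₀ (by linarith)] at hvn
    linarith
  have hK0 : 0 < K := by linarith
  have hC0 : 0 < C := by linarith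
  have hC0' : 0 < C' := by linarith
  set r := min (min (δ / C) (δ / C')) (min δ₁ δ₂) with hr
  have hr0 : 0 < r := lt_min (lt_min (by positivity) (by positivity)) (lt_min hδ₁ hδ₂)
  refine ⟨r / K, by positivity, fun x v hv hx => ?_⟩
  obtain ⟨a, ha, b, hb, hab, hna, hnb⟩ := hsplit v
  have hKv : K * ‖v‖ < r := by
    rw [lt_div_iff₀ hK0] at hv
    linarith
  have ha1 : ‖a‖ < r := hna.trans_lt hKv
  have hb1 : ‖b‖ < r := hnb.trans_lt hKv
  have e1 : r ≤ δ / C := (min_le_left _ _).trans (min_le_left _ _)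
  have e2 : r ≤ δ / C' := (min_le_left _ _).trans (min_le_right _ _)
  have e3 : r ≤ δ₁ := (min_le_right _ _).trans (min_le_left _ _)
  have e4 : r ≤ δ₂ := (min_le_right _ _).trans (min_le_right _ _)
  have hxa : D.Q (x + a) = D.Q x := by
    apply D.exp
    intro n
    constructor
    · rw [D.iter, D.iter, iter_add]
      exact hunif _ _ (hs a ha (ha1.trans_le e1) n)
    · rw [← hx, D.iter', D.iter', dist_comm]
      have e5 : x + v = (x + a) + b := by rw [hab]; abel
      rw [e5, iter_add _ n (x + a) b]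
      exact hunif _ _ (hu b hb (hb1.trans_le e2) n)
  have ha0 : a = 0 := hk1 a ha (ha1.trans_le e3) x hxa
  have hvb : v = b := by rw [hab, ha0, zero_add]
  have hb0 : b = 0 := hk2 b hb (hb1.trans_le e4) x (by rw [← hvb]; exact hx)
  rw [hvb, hb0]

end Pool.Agent.T9h69.CT
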