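import Pool.Agent.T9h69.CT.C1
import Pool.Agent.TH553.K289.J918

set_option autoImplicit false
set_option linter.unusedSectionVars false

/-! Topology: the induced torus map is a covering; deck transformations. -/

open Filter Topology Set Metric

namespace Pool.Agent.T9h69.CT

open Pool.Agent.W740.TC Pool.Agent.H779R2.To

variable {k : ℕ}

/-- the projection to the torus -/
def tp (x : Fin k → ℝ) : Fin k → AddCircle (1 : ℝ) := fun i => ((x i : ℝ) : AddCircle (1 : ℝ))

theorem tp_cont : Continuous (tp (k := k)) :=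
  continuous_pi fun i => (AddCircle.continuous_mk' (1 : ℝ)).comp (continuous_apply i)

theorem tp_surj : Function.Surjective (tp (k := k)) := by
  intro t
  choose x hx using fun i => QuotientAddGroup.mk_surjective (t i)
  exact ⟨x, funext hx⟩

theorem tp_open : IsOpenMap (tp (k := k)) := by
  have h1 : ∀ i : Fin k, IsOpenMap (fun x : ℝ => (x : AddCircle (1 : ℝ))) :=
    fun i => QuotientAddGroup.isOpenMap_coe
  exact IsOpenMap.piMap h1 (by simp)

theorem tp_eq_iff {x y : Fin k → ℝ} : tp x = tp y ↔ ∃ z : Fin k → ℤ, x = y + zr z := by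
  constructor
  · intro h
    have h1 : ∀ i, ∃ n : ℤ, x i = y i + n := by
      intro i
      have h2 : ((x i : ℝ) : AddCircle (1 : ℝ)) = (y i : ℝ) := congrFun h i
      rw [← sub_eq_zero, ← AddCircle.coe_sub, AddCircle.coe_eq_zero_iff] at h2
      obtain ⟨n, hn⟩ := h2
      refine ⟨n, ?_⟩
      rw [zsmul_eq_mul, mul_one] at hn
      linarith
    choose z hz using h1
    exact ⟨z, funext hz⟩
  · rintro ⟨z, rfl⟩
    funext i
    show (((y i + (z i : ℝ)) : ℝ) : AddCircle (1 : ℝ)) = (y i : ℝ)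
    rw [AddCircle.coe_add]
    have h2 : (((z i : ℤ) : ℝ) : AddCircle (1 : ℝ)) = 0 := by
      rw [AddCircle.coe_eq_zero_iff]
      exact ⟨z i, by simp⟩
    rw [h2, add_zero]

theorem tp_add_zr (x : Fin k → ℝ) (z : Fin k → ℤ) : tp (x + zr z) = tp x := tp_eq_iff.mpr ⟨z, rfl⟩

variable {X : Type*} [TopologicalSpace X]

/-- periodic maps induce torus maps -/
theorem exists_torus_map {Q : (Fin k → ℝ) → X} (hQ : Continuous Q)
    (hz : ∀ y z, Q (y + zr z) = Q y) :
    ∃ h : C(Fin k → AddCircle (1 : ℝ), X), ∀ x, h (tp x) = Q x := by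
  have hq : IsQuotientMap (tp (k := k)) := tp_open.isQuotientMap tp_cont tp_surj
  have h1 : ∀ x, Q (Function.surjInv tp_surj (tp x)) = Q x := by
    intro x
    have h2 : tp (Function.surjInv tp_surj (tp x)) = tp x := Function.surjInv_eq tp_surj _
    obtain ⟨z, hz'⟩ := tp_eq_iff.mp h2
    rw [hz', hz]
  refine ⟨⟨fun t => Q (Function.surjInv tp_surj t), ?_⟩, h1⟩
  rw [hq.continuous_iff]
  refine hQ.congr fun x => ?_
  exact (h1 x).symm

/-- the inverse of a continuous injective map of a compact set -/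
theorem cont_inv [T2Space X] {K : Set (Fin k → ℝ)} (hK : IsCompact K) {Q : (Fin k → ℝ) → X}
    (hQ : Continuous Q) (hi : InjOn Q K) :
    ContinuousOn (Function.invFunOn Q K) (Q '' K) := by
  rw [continuousOn_iff_isClosed]
  intro t ht
  refine ⟨Q '' (t ∩ K), ((hK.inter_left ht).image hQ).isClosed, ?_⟩
  ext y
  constructor
  · rintro ⟨h1, x, hx, rfl⟩
    have h2 : Function.invFunOn Q K (Q x) = x := hi.leftInvOn_invFunOn hx
    refine ⟨⟨x, ⟨?_, hx⟩, rfl⟩, x, hx, rfl⟩
    have h3 : Function.invFunOn Q K (Q x) ∈ t := h1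
    rwa [h2] at h3
  · rintro ⟨⟨x, ⟨hxt, hxK⟩, rfl⟩, -⟩
    refine ⟨?_, x, hxK, rfl⟩
    show Function.invFunOn Q K (Q x) ∈ t
    rw [hi.leftInvOn_invFunOn hxK]
    exact hxt

/-- the dimension of the factor is at most `k` -/
theorem finrank_le {E : Type*} [NormedAddCommGroup E] [NormedSpace ℝ E] [FiniteDimensional ℝ E]
    [T2Space X] [CompactSpace X] [Nonempty X] [ChartedSpace E X] {Q : (Fin k → ℝ) → X}
    (hQ : Continuous Q) (hs : Function.Surjective Q) {δ : ℝ} (hδ : 0 < δ)
    (hinj : ∀ x v, ‖v‖ < δ → Q (x + v) = Q x → v = 0) : Module.finrank ℝ E ≤ k := by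
  have hball : ∀ p : Fin k → ℝ, InjOn Q (closedBall p (δ / 3)) := by
    intro p a ha b hb hab
    rw [mem_closedBall, dist_eq_norm] at ha hb
    have h1 : ‖a - b‖ < δ := by
      have : a - b = (a - p) - (b - p) := by abel
      rw [this]
      have := norm_sub_le (a - p) (b - p)
      linarith
    have h2 := hinj b (a - b) h1 (by rw [add_sub_cancel, hab])
    exact sub_eq_zero.mp h2
  have hcov : ⋃ n : ℕ, Q '' (closedBall (TopologicalSpace.denseSeq (Fin k → ℝ) n) (δ / 3)) =
      univ := by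
    rw [eq_univ_iff_forall]
    intro y
    obtain ⟨x, rfl⟩ := hs y
    obtain ⟨n, hn⟩ : ∃ n, dist x (TopologicalSpace.denseSeq (Fin k → ℝ) n) < δ / 3 := by
      obtain ⟨p, ⟨n, rfl⟩, hn⟩ := Metric.mem_closure_iff.mp
        (TopologicalSpace.denseRange_denseSeq (Fin k → ℝ) x) (δ / 3) (by positivity)
      exact ⟨n, hn⟩
    exact mem_iUnion.mpr ⟨n, x, mem_closedBall.mpr hn.le, rfl⟩
  obtain ⟨n, y, hy⟩ := nonempty_interior_of_iUnion_of_closed
    (fun n => ((isCompact_closedBall (TopologicalSpace.denseSeq (Fin k → ℝ) n) (δ / 3)).image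
      hQ).isClosed) hcov
  set K := closedBall (TopologicalSpace.denseSeq (Fin k → ℝ) n) (δ / 3) with hK
  have hKc : IsCompact K := isCompact_closedBall _ _
  set e := chartAt E y with he
  have hye : y ∈ e.source := mem_chart_source E y
  have hU : e.target ∩ e.symm ⁻¹' (interior (Q '' K)) ∈ 𝓝 (e y) := by
    refine inter_mem (e.open_target.mem_nhds (e.map_source hye)) ?_
    have h1 : ContinuousAt e.symm (e y) := e.continuousAt_symm (e.map_source hye)
    apply h1.preimage_mem_nhds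
    rw [e.left_inv hye]
    exact isOpen_interior.mem_nhds hy
  have h2 := Pool.Agent.W964.LieExp.finrank_le_of_injOn
    (interior (e.target ∩ e.symm ⁻¹' (interior (Q '' K)))) isOpen_interior (e y)
    (mem_interior_iff_mem_nhds.2 hU) (fun v => Function.invFunOn Q K (e.symm v)) (by
      refine ContinuousOn.mono ?_ interior_subset
      refine (cont_inv hKc hQ (hball _)).comp (e.symm.continuousOn.mono inter_subset_left) ?_
      intro v hv
      exact interior_subset hv.2) (by
      refine InjOn.mono interior_subset ?_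
      intro a ha b hb hab
      have h3 : ∀ v ∈ e.target ∩ e.symm ⁻¹' (interior (Q '' K)),
          Q (Function.invFunOn Q K (e.symm v)) = e.symm v :=
        fun v hv => Function.invFunOn_eq (show e.symm v ∈ Q '' K from interior_subset hv.2)
      have h4 : e.symm a = e.symm b := by
        rw [← h3 a ha, ← h3 b hb]
        exact congrArg Q hab
      exact e.symm.injOn ha.1 hb.1 h4)
  rwa [Module.finrank_fin_fun] at h2

/-- the lift is open -/
theorem open_of_inj {E : Type*} [NormedAddCommGroup E] [NormedSpace ℝ E] [FiniteDimensional ℝ E]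
    [T2Space X] [CompactSpace X] [Nonempty X] [ChartedSpace E X] {Q : (Fin k → ℝ) → X}
    (hQ : Continuous Q) (hs : Function.Surjective Q) {δ : ℝ} (hδ : 0 < δ)
    (hinj : ∀ x v, ‖v‖ < δ → Q (x + v) = Q x → v = 0) : IsOpenMap Q := by
  have hdim := finrank_le (E := E) hQ hs hδ hinj
  rw [isOpenMap_iff_nhds_le]
  intro x s hs'
  rw [Filter.mem_map] at hs'
  have hi : InjOn Q (ball x (δ / 2)) := by
    intro a ha b hb hab
    rw [mem_ball, dist_eq_norm] at ha hb
    have h1 : ‖a - b‖ < δ := by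
      have : a - b = (a - x) - (b - x) := by abel
      rw [this]
      have := norm_sub_le (a - x) (b - x)
      linarith
    have h2 := hinj b (a - b) h1 (by rw [add_sub_cancel, hab])
    exact sub_eq_zero.mp h2
  refine Filter.mem_of_superset (Pool.Agent.TH553.K289.image_nhds (E := Fin k → ℝ) (E' := E)
    (by rw [Module.finrank_fin_fun]; exact hdim) hQ (ball_mem_nhds x (half_pos hδ)) hi hs') ?_
  exact image_preimage_subset Q s

/-- the torus map is a covering -/
theorem covering {E : Type*} [NormedAddCommGroup E] [NormedSpace ℝ E] [FiniteDimensional ℝ E]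
    [T2Space X] [CompactSpace X] [Nonempty X] [ChartedSpace E X] {Q : (Fin k → ℝ) → X}
    (hQ : Continuous Q) (hs : Function.Surjective Q) {δ : ℝ} (hδ : 0 < δ)
    (hinj : ∀ x v, ‖v‖ < δ → Q (x + v) = Q x → v = 0)
    (h : C(Fin k → AddCircle (1 : ℝ), X)) (hh : ∀ x, h (tp x) = Q x) : IsCoveringMap h := by
  have hopQ := open_of_inj (E := E) hQ hs hδ hinj
  have hopen : IsOpenMap h := by
    intro U hU
    have h1 : h '' U = Q '' (tp ⁻¹' U) := by
      ext y
      constructor
      · rintro ⟨t, ht, rfl⟩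
        obtain ⟨x, rfl⟩ := tp_surj t
        exact ⟨x, ht, (hh x).symm⟩
      · rintro ⟨x, hx, rfl⟩
        exact ⟨tp x, hx, hh x⟩
    rw [h1]
    exact hopQ _ (hU.preimage tp_cont)
  have hlh : IsLocalHomeomorph h := by
    rw [isLocalHomeomorph_iff_isOpenEmbedding_restrict]
    intro t
    obtain ⟨x, rfl⟩ := tp_surj t
    have hop : IsOpen (tp '' (ball x (δ / 2))) := tp_open _ isOpen_ball
    refine ⟨tp '' (ball x (δ / 2)), hop.mem_nhds ⟨x, mem_ball_self (half_pos hδ), rfl⟩, ?_⟩
    refine IsOpenEmbedding.of_continuous_injective_isOpenMap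
      (h.continuous.comp continuous_subtype_val) ?_ (hopen.domRestrict hop)
    rintro ⟨_, a, ha, rfl⟩ ⟨_, b, hb, rfl⟩ hab
    have hab' : Q a = Q b := by
      rw [← hh, ← hh]
      exact hab
    rw [mem_ball, dist_eq_norm] at ha hb
    have h1 : ‖a - b‖ < δ := by
      have : a - b = (a - x) - (b - x) := by abel
      rw [this]
      have := norm_sub_le (a - x) (b - x)
      linarith
    have h2 := hinj b (a - b) h1 (by rw [add_sub_cancel, hab'])
    have h3 : a = b := sub_eq_zero.mp h2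
    subst h3
    rfl
  exact isLocalHomeomorph_iff_isCoveringMap.1 hlh

/-- lifting to `ℝᵏ` of maps to the torus -/
theorem lift_tp (g : C(Fin k → ℝ, Fin k → AddCircle (1 : ℝ))) (x₀ y₀ : Fin k → ℝ)
    (h0 : g x₀ = tp y₀) : ∃ G : (Fin k → ℝ) → (Fin k → ℝ), Continuous G ∧ (∀ x, tp (G x) = g x) ∧
      G x₀ = y₀ := by
  have hc : IsCoveringMap ((↑) : ℝ → AddCircle (1 : ℝ)) := AddCircle.isCoveringMap_coe 1
  have h1 : ∀ i : Fin k, ∃ F : C(Fin k → ℝ, ℝ), F x₀ = y₀ i ∧
      ∀ x, ((F x : ℝ) : AddCircle (1 : ℝ)) = g x i := by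
    intro i
    let gi : C(Fin k → ℝ, AddCircle (1 : ℝ)) := ⟨fun x => g x i, by fun_prop⟩
    obtain ⟨F, ⟨h2, h3⟩, -⟩ := hc.existsUnique_continuousMap_lifts gi x₀ (y₀ i)
      (congrFun h0 i).symm
    exact ⟨F, h2, fun x => congrFun h3 x⟩
  choose F hF1 hF2 using h1
  refine ⟨fun x i => F i x, continuous_pi fun i => (F i).continuous, fun x => ?_, ?_⟩
  · funext i
    exact hF2 i x
  · funext i
    exact hF1 i

/-- lifts of maps -/
theorem exists_deck {Q : (Fin k → ℝ) → X} (hQ : Continuous Q)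
    (h : C(Fin k → AddCircle (1 : ℝ), X)) (hh : ∀ x, h (tp x) = Q x) (hcov : IsCoveringMap h)
    (φ : X → X) (x₀ y₀ : Fin k → ℝ) (hφ : Continuous φ) (h0 : Q y₀ = φ (Q x₀)) :
    ∃ G : (Fin k → ℝ) → (Fin k → ℝ), Continuous G ∧ (∀ x, Q (G x) = φ (Q x)) ∧ G x₀ = y₀ := by
  obtain ⟨F, ⟨h2, h3⟩, -⟩ := hcov.existsUnique_continuousMap_lifts
    ⟨fun x => φ (Q x), hφ.comp hQ⟩ x₀ (tp y₀) (by
    show h (tp y₀) = φ (Q x₀)
    rw [hh, h0])
  obtain ⟨G, hG1, hG2, hG3⟩ := lift_tp F x₀ y₀ h2
  refine ⟨G, hG1, fun x => ?_, hG3⟩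
  rw [← hh, hG2]
  exact congrFun h3 x

theorem deck_unique [T2Space X] {Q : (Fin k → ℝ) → X} {δ : ℝ} (hδ : 0 < δ)
    (hinj : ∀ x v, ‖v‖ < δ → Q (x + v) = Q x → v = 0) {G G' : (Fin k → ℝ) → (Fin k → ℝ)}
    (hG : Continuous G) (hG' : Continuous G') (h : ∀ x, Q (G x) = Q (G' x)) {x₀ : Fin k → ℝ}
    (h0 : G x₀ = G' x₀) (x : Fin k → ℝ) : G x = G' x := by
  have hcl : IsClopen {x | G x = G' x} := by
    refine ⟨isClosed_eq hG hG', ?_⟩
    rw [isOpen_iff_mem_nhds]
    intro a ha
    have h1 : ∀ᶠ b in 𝓝 a, ‖G b - G' b‖ < δ := by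
      have h2 : Continuous fun b => ‖G b - G' b‖ := (hG.sub hG').norm
      have h3 : ‖G a - G' a‖ < δ := by
        have h4 : G a = G' a := ha
        rw [h4, sub_self, norm_zero]
        exact hδ
      exact h2.continuousAt.eventually (gt_mem_nhds h3)
    filter_upwards [h1] with b hb
    have h5 := hinj (G' b) (G b - G' b) hb (by rw [add_sub_cancel]; exact h b)
    exact sub_eq_zero.mp h5
  have h6 := hcl.eq_univ ⟨x₀, h0⟩
  have h7 : x ∈ {x | G x = G' x} := by rw [h6]; exact mem_univ x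
  exact h7

end Pool.Agent.T9h69.CT
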