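import Pool.Agent.H779R2.To.TDef
import Pool.Agent.W740.TC.Def

set_option autoImplicit false

namespace Pool.Agent.T9h69.CT

open Pool.Agent.W740.TC Pool.Agent.H779R2.To

/-- `g` is a topological factor of an affine endomorphism `x ↦ A x + b` of a torus
`𝕋ᵐ = (ℝ/ℤ)ᵐ`: there is a continuous surjection `h : 𝕋ᵐ → X` with `g (h x) = h (A x + b)`.  The
integer matrix `A` is arbitrary: it may be singular, and it may have eigenvalues of modulus one. -/
def ToralFactor {X : Type*} [TopologicalSpace X] (g : X → X) : Prop :=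
  ∃ (m : ℕ) (A : Matrix (Fin m) (Fin m) ℤ) (b : Fin m → AddCircle (1 : ℝ))
    (h : (Fin m → AddCircle (1 : ℝ)) → X), Continuous h ∧ Function.Surjective h ∧
    ∀ x, g (h x) = h (torusMap A x + b)

/-- `f` is a hyperbolic infra-toral automorphism up to topological conjugacy: `X` is the quotient
of a torus `𝕋ᵏ` by a covering map `h : 𝕋ᵏ → X` such that `f (h x) = h (B x)` for a matrix
`B ∈ GL(k, ℤ)` without eigenvalues of modulus one, and any two points `x, y` in a fibre of `h` are
related by an affine automorphism `w ↦ C w + c` of the torus (`C ∈ GL(k, ℤ)`) that preserves all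
fibres of `h`.  So `h` is the quotient map by a finite group of affine automorphisms of `𝕋ᵏ` which
acts freely. -/
def InfraTor {X : Type*} [TopologicalSpace X] (f : X → X) : Prop :=
  ∃ (k : ℕ) (B : Matrix (Fin k) (Fin k) ℤ) (h : (Fin k → AddCircle (1 : ℝ)) → X),
    IsUnit B.det ∧ HypMat B ∧ IsCoveringMap h ∧ Function.Surjective h ∧
    (∀ x, f (h x) = h (torusMap B x)) ∧
    ∀ x y, h x = h y → ∃ (C : Matrix (Fin k) (Fin k) ℤ) (c : Fin k → AddCircle (1 : ℝ)),
      IsUnit C.det ∧ y = torusMap C x + c ∧ ∀ w, h (torusMap C w + c) = h w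

end Pool.Agent.T9h69.CT
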