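import Pool.Agent.T9h69.CT.D1

set_option autoImplicit false
set_option linter.unusedSectionVars false

/-! Deck transformations are affine. -/

open Filter Topology Set Metric

namespace Pool.Agent.T9h69.CT

open Pool.Agent.W740.TC Pool.Agent.H779R2.To

variable {k : ℕ} {X : Type*} [MetricSpace X]

/-- a fibre is finite modulo the lattice -/
theorem pigeon {Q : (Fin k → ℝ) → X} (hz : ∀ y z, Q (y + zr z) = Q y) {δ : ℝ} (hδ : 0 < δ)
    (hinj : ∀ x v, ‖v‖ < δ → Q (x + v) = Q x → v = 0) (a : X) (x : ℕ → Fin k → ℝ)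
    (hx : ∀ n, Q (x n) = a) : ∃ i j : ℕ, i < j ∧ ∃ z : Fin k → ℤ, x j = x i + zr z := by
  choose z r hr hr1 using fun n => zr_fract (x n)
  have hmem : ∀ n, r n ∈ closedBall (0 : Fin k → ℝ) 1 := fun n =>
    mem_closedBall_zero_iff.mpr (hr1 n)
  obtain ⟨p, -, φ, hφ, hlim⟩ := (isCompact_closedBall (0 : Fin k → ℝ) 1).tendsto_subseq hmem
  obtain ⟨N, hN⟩ := Metric.cauchySeq_iff.mp hlim.cauchySeq δ hδ
  have h1 := hN (N + 1) (Nat.le_succ N) N le_rfl
  rw [dist_eq_norm] at h1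
  have hQr : ∀ n, Q (r n) = a := by
    intro n
    rw [← hx n, hr n, hz]
  have h2 := hinj (r (φ N)) (r (φ (N + 1)) - r (φ N)) h1 (by
    rw [add_sub_cancel, hQr, hQr])
  have h3 : r (φ (N + 1)) = r (φ N) := sub_eq_zero.mp h2
  refine ⟨φ N, φ (N + 1), hφ (Nat.lt_succ_self N), z (φ (N + 1)) - z (φ N), ?_⟩
  rw [hr (φ (N + 1)), h3]
  conv_rhs => rw [hr (φ N)]
  rw [zr_sub]
  abel

/-- a translation is almost respected -/
theorem deck_period {Q : (Fin k → ℝ) → X} (hz : ∀ y z, Q (y + zr z) = Q y) {δ : ℝ}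
    (hδ : 0 < δ) (hinj : ∀ x v, ‖v‖ < δ → Q (x + v) = Q x → v = 0) {G : (Fin k → ℝ) → (Fin k → ℝ)}
    (hG : Continuous G) (g : X → X) (hGQ : ∀ x, Q (G x) = g (Q x)) (l : Fin k → ℤ) :
    ∃ c : ℕ, 1 ≤ c ∧ ∃ z : Fin k → ℤ, ∀ x, G (x + (c : ℝ) • zr l) = G x + zr z := by
  have hnl : ∀ (n : ℕ), (n : ℝ) • zr l = zr ((n : ℤ) • l) := by
    intro n
    funext i
    simp [zr]
  have hper : ∀ (n : ℕ) x, Q (x + (n : ℝ) • zr l) = Q x := by
    intro n x
    rw [hnl, hz]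
  obtain ⟨i, j, hij, z, h1⟩ := pigeon hz hδ hinj (g (Q 0)) (fun n => G (0 + (n : ℝ) • zr l))
    (fun n => by
      show Q (G (0 + (n : ℝ) • zr l)) = g (Q 0)
      rw [hGQ, hper])
  refine ⟨j - i, by omega, z, fun x => ?_⟩
  have h2 := deck_unique hδ hinj (G := fun x => G (x + (j : ℝ) • zr l))
    (G' := fun x => G (x + (i : ℝ) • zr l) + zr z) (by fun_prop) (by fun_prop)
    (fun x => by rw [hGQ, hper, hz, hGQ, hper]) (x₀ := 0) h1 (x - (i : ℝ) • zr l)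
  have h3 : x - (i : ℝ) • zr l + (j : ℝ) • zr l = x + ((j - i : ℕ) : ℝ) • zr l := by
    rw [Nat.cast_sub hij.le, sub_smul]
    abel
  simp only [h3, sub_add_cancel] at h2
  exact h2

/-- lifts are at bounded distance from linear maps -/
theorem deck_linear {Q : (Fin k → ℝ) → X} (hz : ∀ y z, Q (y + zr z) = Q y) {δ : ℝ}
    (hδ : 0 < δ) (hinj : ∀ x v, ‖v‖ < δ → Q (x + v) = Q x → v = 0) {G : (Fin k → ℝ) → (Fin k → ℝ)}
    (hG : Continuous G) (g : X → X) (hGQ : ∀ x, Q (G x) = g (Q x)) :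
    ∃ (Θ : (Fin k → ℝ) →ₗ[ℝ] (Fin k → ℝ)) (M : ℝ), ∀ x, ‖G x - Θ x‖ ≤ M := by
  choose c hc z hcz using fun i : Fin k => deck_period hz hδ hinj hG g hGQ (Pi.single i 1)
  have hc0 : ∀ i, (0 : ℝ) < c i := fun i => by exact_mod_cast hc i
  let Θ : (Fin k → ℝ) →ₗ[ℝ] (Fin k → ℝ) :=
    (Pi.basisFun ℝ (Fin k)).constr ℝ (fun i => (c i : ℝ)⁻¹ • zr (z i))
  have hΘ : ∀ i, Θ (Pi.single i 1) = (c i : ℝ)⁻¹ • zr (z i) := by
    intro i
    have := (Pi.basisFun ℝ (Fin k)).constr_basis ℝ (fun i => (c i : ℝ)⁻¹ • zr (z i)) i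
    rwa [Pi.basisFun_apply] at this
  have hΘc : Continuous Θ := LinearMap.continuous_of_finiteDimensional Θ
  set H : (Fin k → ℝ) → (Fin k → ℝ) := fun x => G x - Θ x with hH
  have hHc : Continuous H := hG.sub hΘc
  have hgen : ∀ i, (c i : ℝ) • (Pi.single i (1 : ℝ) : Fin k → ℝ) ∈ stab H := by
    intro i x
    show G (x + (c i : ℝ) • Pi.single i 1) - Θ (x + (c i : ℝ) • Pi.single i 1) = G x - Θ x
    have h1 := hcz i x
    rw [zr_single] at h1
    rw [h1, map_add, map_smul, hΘ, smul_smul, mul_inv_cancel₀ (hc0 i).ne', one_smul]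
    abel
  obtain ⟨M, hM⟩ := (isCompact_Icc (a := (0 : Fin k → ℝ)) (b := fun i => (c i : ℝ))).exists_bound_of_continuousOn
    hHc.continuousOn
  refine ⟨Θ, M, fun x => ?_⟩
  have h2 : (∑ i, (-⌊x i / c i⌋) • ((c i : ℝ) • (Pi.single i (1 : ℝ) : Fin k → ℝ))) ∈ stab H :=
    AddSubgroup.sum_mem _ fun i _ => AddSubgroup.zsmul_mem _ (hgen i) _
  have h3 := h2 x
  show ‖H x‖ ≤ M
  rw [← h3]
  apply hM
  have h4 : ∀ j, (x + ∑ i, (-⌊x i / c i⌋) • ((c i : ℝ) • (Pi.single i (1 : ℝ) : Fin k → ℝ))) j =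
      x j - ⌊x j / c j⌋ * c j := by
    intro j
    rw [Pi.add_apply, Finset.sum_apply, Finset.sum_eq_single j]
    · rw [← Int.cast_smul_eq_zsmul ℝ]
      simp
      ring
    · intro i _ hi
      rw [← Int.cast_smul_eq_zsmul ℝ]
      simp [Ne.symm hi]
    · intro hj
      exact absurd (Finset.mem_univ j) hj
  constructor
  · intro j
    rw [h4]
    show 0 ≤ x j - ⌊x j / c j⌋ * c j
    have h5 : (⌊x j / c j⌋ : ℝ) ≤ x j / c j := Int.floor_le _
    have h6 := (le_div_iff₀ (hc0 j)).mp h5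
    linarith
  · intro j
    rw [h4]
    show x j - ⌊x j / c j⌋ * c j ≤ c j
    have h5 : x j / c j < ⌊x j / c j⌋ + 1 := Int.lt_floor_add_one _
    have h6 := (div_lt_iff₀ (hc0 j)).mp h5
    linarith

/-- a bounded linear function vanishes -/
theorem lin_zero {T : (Fin k → ℝ) →ₗ[ℝ] (Fin k → ℝ)} {M : ℝ} (h : ∀ x, ‖T x‖ ≤ M) (x : Fin k → ℝ) :
    T x = 0 := by
  by_contra hne
  have hpos : 0 < ‖T x‖ := norm_pos_iff.mpr hne
  obtain ⟨n, hn⟩ := exists_nat_gt (M / ‖T x‖)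
  rw [div_lt_iff₀ hpos] at hn
  have h1 := h ((n : ℝ) • x)
  rw [map_smul, norm_smul, Real.norm_natCast] at h1
  linarith

/-- vectors whose orbit is bounded along multiples of `N` -/
theorem Bd_of_mult (B : Matrix (Fin k) (Fin k) ℤ) {N : ℕ} (hN : 1 ≤ N) {v : Fin k → ℝ} {K : ℝ}
    (h : ∀ n : ℕ, ‖(am B)^[N * n] v‖ ≤ K) : v ∈ Bd B := by
  set L := LinearMap.toContinuousLinearMap (amL B) with hL
  have h1 : ∀ w, ‖am B w‖ ≤ ‖L‖ * ‖w‖ := fun w => L.le_opNorm w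
  set D := max 1 ‖L‖ with hD
  have hD1 : 1 ≤ D := le_max_left _ _
  have h2 : ∀ (r : ℕ) w, ‖(am B)^[r] w‖ ≤ D ^ r * ‖w‖ := by
    intro r
    induction r with
    | zero => intro w; simp
    | succ r ih =>
      intro w
      rw [Function.iterate_succ_apply']
      calc ‖am B ((am B)^[r] w)‖ ≤ ‖L‖ * ‖(am B)^[r] w‖ := h1 _
        _ ≤ D * (D ^ r * ‖w‖) :=
            mul_le_mul (le_max_right _ _) (ih w) (norm_nonneg _) (by positivity)
        _ = D ^ (r + 1) * ‖w‖ := by ring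
  have hK0 : 0 ≤ K := (norm_nonneg _).trans (h 0)
  refine ⟨D ^ N * K, fun n => ?_⟩
  have h3 : n = n % N + N * (n / N) := (Nat.mod_add_div n N).symm
  rw [h3, Function.iterate_add_apply]
  refine (h2 _ _).trans ?_
  refine mul_le_mul ?_ (h _) (norm_nonneg _) (by positivity)
  exact pow_le_pow_right₀ hD1 (Nat.mod_lt _ (by omega)).le

/-- **lifts of maps commuting with `f` are affine** -/
theorem Fac.deck_affine (D : Fac X k) {δ : ℝ} (hδ : 0 < δ)
    (hinj : ∀ x v, ‖v‖ < δ → D.Q (x + v) = D.Q x → v = 0) {G : (Fin k → ℝ) → (Fin k → ℝ)}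
    (hG : Continuous G) (g : X → X) (hg : ∀ x, g (D.f x) = D.f (g x))
    (hGQ : ∀ x, D.Q (G x) = g (D.Q x)) :
    ∃ (Θ : (Fin k → ℝ) →ₗ[ℝ] (Fin k → ℝ)) (c : Fin k → ℝ), ∀ x, G x = Θ x + c := by
  have hBB' : D.B' * D.B = 1 := mul_eq_one_comm.mp D.hBB
  obtain ⟨Θ, M, hM⟩ := deck_linear D.per hδ hinj hG g hGQ
  have hit : ∀ (n : ℕ) (y : Fin k → ℝ), (am D.B)^[n] y = ((amL D.B) ^ n) y := by
    intro n y
    rw [Module.End.pow_apply]
    rfl
  have hitc : ∀ n : ℕ, Continuous ((am D.B)^[n]) := fun n => (am_cont D.B).iterate n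
  have hitc' : ∀ n : ℕ, Continuous ((am D.B')^[n]) := fun n => (am_cont D.B').iterate n
  have hgn : ∀ (n : ℕ) x, D.f^[n] (g x) = g (D.f^[n] x) := by
    intro n
    induction n with
    | zero => intro x; rfl
    | succ n ih =>
      intro x
      rw [Function.iterate_succ_apply, ← hg, ih, Function.iterate_succ_apply]
  have hconj : ∀ (n : ℕ) x, D.Q ((am D.B)^[n] (G ((am D.B')^[n] x))) = g (D.Q x) := by
    intro n x
    rw [← D.iter, hGQ, hgn, D.iter, iter_inv D.hBB]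
  obtain ⟨i, j, hij, z, h1⟩ := pigeon D.per hδ hinj (g (D.Q 0))
    (fun n => (am D.B)^[n] (G ((am D.B')^[n] 0))) (fun n => hconj n 0)
  have h2 := deck_unique hδ hinj (G := fun x => (am D.B)^[j] (G ((am D.B')^[j] x)))
    (G' := fun x => (am D.B)^[i] (G ((am D.B')^[i] x)) + zr z)
    ((hitc j).comp (hG.comp (hitc' j))) (((hitc i).comp (hG.comp (hitc' i))).add continuous_const)
    (fun x => by rw [hconj, D.per, hconj]) (x₀ := 0) h1
  obtain ⟨N, hN⟩ : ∃ N, N = j - i := ⟨_, rfl⟩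
  have hj : j = i + N := by omega
  have hN1 : 1 ≤ N := by omega
  -- commutation with `B ^ N`
  obtain ⟨w, hw⟩ : ∃ w, ∀ y, (am D.B)^[N] (G y) = G ((am D.B)^[N] y) + w := by
    refine ⟨(am D.B')^[i] (zr z), fun y => ?_⟩
    have h3 := h2 ((am D.B)^[j] y)
    rw [iter_inv hBB'] at h3
    have h4 : (am D.B')^[i] ((am D.B)^[j] y) = (am D.B)^[N] y := by
      rw [hj, Function.iterate_add_apply, iter_inv hBB']
    rw [h4] at h3
    have h5 := congrArg ((am D.B')^[i]) h3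
    rw [iter_add, iter_inv hBB', hj, Function.iterate_add_apply, iter_inv hBB'] at h5
    exact h5
  set H : (Fin k → ℝ) → (Fin k → ℝ) := fun x => G x - Θ x with hH
  have hGH : ∀ x, G x = H x + Θ x := fun x => (sub_add_cancel _ _).symm
  set T : (Fin k → ℝ) →ₗ[ℝ] (Fin k → ℝ) := ((amL D.B) ^ N) ∘ₗ Θ - Θ ∘ₗ ((amL D.B) ^ N) with hT
  have hTx : ∀ y, T y = (am D.B)^[N] (Θ y) - Θ ((am D.B)^[N] y) := by
    intro y
    rw [hit, hit]
    rfl
  obtain ⟨K, hK⟩ : ∃ K : ℝ, ∀ w : Fin k → ℝ, ‖w‖ ≤ M → ‖(am D.B)^[N] w‖ ≤ K := by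
    refine ⟨‖LinearMap.toContinuousLinearMap ((amL D.B) ^ N)‖ * M, fun w hw => ?_⟩
    rw [hit]
    exact ((LinearMap.toContinuousLinearMap ((amL D.B) ^ N)).le_opNorm w).trans
      (mul_le_mul_of_nonneg_left hw (norm_nonneg _))
  have hTb : ∀ y, ‖T y‖ ≤ M + ‖w‖ + K := by
    intro y
    have h3 := hw y
    rw [hGH, hGH ((am D.B)^[N] y), iter_add] at h3
    have h4 : T y = H ((am D.B)^[N] y) + w - (am D.B)^[N] (H y) := by
      rw [hTx, eq_sub_iff_add_eq, sub_add_eq_add_sub, sub_eq_iff_eq_add]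
      rw [add_comm ((am D.B)^[N] (Θ y)), h3]
      abel
    rw [h4]
    refine (norm_sub_le _ _).trans (add_le_add ((norm_add_le _ _).trans (add_le_add ?_ le_rfl)) ?_)
    · exact hM _
    · exact hK _ (hM _)
  have hT0 := lin_zero hTb
  -- the periodic part
  have hHB : ∀ y, (am D.B)^[N] (H y) = H ((am D.B)^[N] y) + w := by
    intro y
    have h3 := hw y
    rw [hGH, hGH ((am D.B)^[N] y), iter_add] at h3
    have h4 := hT0 y
    rw [hTx, sub_eq_zero] at h4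
    rw [h4] at h3
    have h5 : (am D.B)^[N] (H y) + Θ ((am D.B)^[N] y) =
        H ((am D.B)^[N] y) + w + Θ ((am D.B)^[N] y) := by
      rw [h3]
      abel
    exact add_right_cancel h5
  have hH1 : ∀ y, (am D.B)^[N] (H y - H 0) = H ((am D.B)^[N] y) - H 0 := by
    intro y
    have h3 := hHB 0
    rw [iter_zero] at h3
    rw [am_iter_sub, hHB, h3]
    abel
  have hH2 : ∀ (n : ℕ) y, (am D.B)^[N * n] (H y - H 0) = H ((am D.B)^[N * n] y) - H 0 := by
    intro n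
    induction n with
    | zero => intro y; rfl
    | succ n ih =>
      intro y
      have h4 : N * (n + 1) = N * n + N := by ring
      rw [h4, Function.iterate_add_apply, hH1, ih, Function.iterate_add_apply]
  have hbd : ∀ y, ‖H y - H 0‖ ≤ M + M := fun y =>
    (norm_sub_le _ _).trans (add_le_add (hM y) (hM 0))
  have hzero : ∀ y, H y - H 0 = 0 := by
    intro y
    refine Bd_disj hBB' D.hyp (Bd_of_mult D.B hN1 (K := M + M) fun n => ?_)
      (Bd_of_mult D.B' hN1 (K := M + M) fun n => ?_)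
    · rw [hH2]
      exact hbd _
    · have h5 := hH2 n ((am D.B')^[N * n] y)
      rw [iter_inv D.hBB] at h5
      rw [← h5, iter_inv hBB']
      exact hbd _
  refine ⟨Θ, H 0, fun x => ?_⟩
  rw [hGH, ← sub_eq_zero.mp (hzero x)]
  exact add_comm _ _

/-- **lifts of homeomorphisms commuting with `f` are integral affine maps** -/
theorem Fac.lift_int (D : Fac X k) {δ : ℝ} (hδ : 0 < δ)
    (hinj : ∀ x v, ‖v‖ < δ → D.Q (x + v) = D.Q x → v = 0)
    (hex : ∀ (φ : X → X) (x₀ y₀ : Fin k → ℝ), Continuous φ → D.Q y₀ = φ (D.Q x₀) →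
      ∃ G : (Fin k → ℝ) → (Fin k → ℝ), Continuous G ∧ (∀ x, D.Q (G x) = φ (D.Q x)) ∧ G x₀ = y₀)
    (g : X ≃ₜ X) (hg : ∀ x, g (D.f x) = D.f (g x)) (x₀ y₀ : Fin k → ℝ)
    (h0 : D.Q y₀ = g (D.Q x₀)) :
    ∃ (C C' : Matrix (Fin k) (Fin k) ℤ) (c : Fin k → ℝ), C * C' = 1 ∧ y₀ = am C x₀ + c ∧
      ∀ x, D.Q (am C x + c) = g (D.Q x) := by
  have hg' : ∀ x, g.symm (D.f x) = D.f (g.symm x) := by
    intro x
    rw [Homeomorph.symm_apply_eq, hg, Homeomorph.apply_symm_apply]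
  obtain ⟨G, hG, hGQ, hG0⟩ := hex g x₀ y₀ g.continuous h0
  obtain ⟨G', hG', hGQ', hG0'⟩ := hex g.symm y₀ x₀ g.symm.continuous (by
    rw [h0, Homeomorph.symm_apply_apply])
  have h1 : ∀ x, G' (G x) = x := deck_unique hδ hinj (hG'.comp hG) continuous_id
    (fun x => by
      show D.Q (G' (G x)) = D.Q x
      rw [hGQ', hGQ, Homeomorph.symm_apply_apply]) (x₀ := x₀) (by
      show G' (G x₀) = x₀
      rw [hG0, hG0'])
  have h2 : ∀ x, G (G' x) = x := deck_unique hδ hinj (hG.comp hG') continuous_id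
    (fun x => by
      show D.Q (G (G' x)) = D.Q x
      rw [hGQ, hGQ', Homeomorph.apply_symm_apply]) (x₀ := y₀) (by
      show G (G' y₀) = y₀
      rw [hG0', hG0])
  obtain ⟨Θ, c, hΘ⟩ := D.deck_affine hδ hinj hG g hg hGQ
  obtain ⟨Θ', c', hΘ'⟩ := D.deck_affine hδ hinj hG' g.symm hg' hGQ'
  have key : ∀ {G G' : (Fin k → ℝ) → (Fin k → ℝ)} {Θ : (Fin k → ℝ) →ₗ[ℝ] (Fin k → ℝ)}
      {c : Fin k → ℝ} {g : X → X}, (∀ x, D.Q (G x) = g (D.Q x)) →
      (∀ x, G (G' x) = x) → (∀ x, G x = Θ x + c) → ∀ z : Fin k → ℤ, ∃ z', Θ (zr z) = zr z' := by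
    intro G G' Θ c g hGQ h2 hΘ z
    apply D.st
    intro y
    have e1 : y + Θ (zr z) = G (G' y + zr z) := by
      rw [hΘ, map_add]
      nth_rewrite 1 [← h2 y]
      rw [hΘ]
      abel
    rw [e1, hGQ, D.per, ← hGQ, h2]
  obtain ⟨C, hC⟩ := exists_int Θ (key hGQ h2 hΘ)
  obtain ⟨C', hC'⟩ := exists_int Θ' (key hGQ' h1 hΘ')
  have hCC : C' * C = 1 := by
    apply eq_one_of_am
    intro x
    rw [am_comp, ← hC, ← hC']
    have e1 := h1 x
    have e2 := h1 0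
    rw [hΘ, hΘ', map_add] at e1 e2
    rw [map_zero, map_zero, zero_add] at e2
    rw [add_assoc, e2, add_zero] at e1
    exact e1
  refine ⟨C, C', c, mul_eq_one_comm.mp hCC, ?_, fun x => ?_⟩
  · rw [← hG0, hΘ, hC]
  · rw [← hC, ← hΘ, hGQ]

end Pool.Agent.T9h69.CT
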