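import Pool.Agent.T9h69.CT.E1
import Pool.Agent.T9h69.CT.Def
import Pool.Agent.TH289.Closing

set_option autoImplicit false
set_option linter.unusedSectionVars false

/-! Expansive homeomorphisms with a power that is a toral factor. -/

open Filter Topology Set Metric

namespace Pool.Agent.T9h69.CT

open Pool.Agent.W740.TC Pool.Agent.H779R2.To

variable {k : ℕ} {X : Type*} [MetricSpace X]

/-- translation to a fixed point -/
theorem exists_fac {f : X ≃ₜ X} {ε : ℝ} (hε : 0 < ε) (hexp : Exp f ε)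
    {B B' : Matrix (Fin k) (Fin k) ℤ} (hBB : B * B' = 1) {c : Fin k → ℝ} {Q : (Fin k → ℝ) → X}
    (hQ : Continuous Q) (hs : Function.Surjective Q) (hz : ∀ y z, Q (y + zr z) = Q y)
    (hst : ∀ w, (∀ y, Q (y + w) = Q y) → ∃ z, w = zr z)
    (hf : ∀ y, f (Q y) = Q (am B y + c)) :
    ∃ D : Fac X k, D.f = f ∧ Function.Surjective D.Q := by
  have hyp : HypMat B := hyp_of_bdd hBB fun v h1 h2 => bdd_zero hε hexp hBB hQ hz hst hf h1 h2
  obtain ⟨y₀, hy₀⟩ : ∃ y₀, am B y₀ + c = y₀ := by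
    have hinj : Function.Injective (amL B - (LinearMap.id : (Fin k → ℝ) →ₗ[ℝ] (Fin k → ℝ))) := by
      rw [injective_iff_map_eq_zero]
      intro v hv
      have h1 : am B v = v := by
        have h2 : am B v - v = 0 := hv
        exact sub_eq_zero.mp h2
      have h1' : am B' v = v := by
        conv_lhs => rw [← h1]
        exact am_inv (mul_eq_one_comm.mp hBB) v
      refine Bd_disj (mul_eq_one_comm.mp hBB) hyp ⟨‖v‖, fun n => ?_⟩ ⟨‖v‖, fun n => ?_⟩
      · rw [Function.iterate_fixed h1]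
      · rw [Function.iterate_fixed h1']
    obtain ⟨y, hy⟩ := LinearMap.injective_iff_surjective.mp hinj (-c)
    have h2 : am B y - y = -c := hy
    refine ⟨y, ?_⟩
    rw [sub_eq_iff_eq_add] at h2
    rw [h2]
    abel
  refine ⟨⟨f, B, B', hBB, hyp, fun y => Q (y + y₀), hQ.comp (by fun_prop), fun y z => ?_,
    fun w hw => hst w fun y => ?_, fun y => ?_, ε, hε, hexp⟩, rfl, fun x => ?_⟩
  · show Q (y + zr z + y₀) = Q (y + y₀)
    have e1 : y + zr z + y₀ = y + y₀ + zr z := by abel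
    rw [e1, hz]
  · have h1 := hw (y - y₀)
    have e1 : y - y₀ + w + y₀ = y + w := by abel
    simp only [e1, sub_add_cancel] at h1
    exact h1
  · show f (Q (y + y₀)) = Q (am B y + y₀)
    rw [hf, am_add]
    congr 1
    conv_rhs => rw [← hy₀]
    abel
  · obtain ⟨y, rfl⟩ := hs x
    exact ⟨y - y₀, by
      show Q (y - y₀ + y₀) = Q y
      rw [sub_add_cancel]⟩

variable {E : Type*} [NormedAddCommGroup E] [NormedSpace ℝ E] [FiniteDimensional ℝ E]
  [CompactSpace X] [Nonempty X] [ChartedSpace E X]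

include E in
/-- the covering and the lifts of a factor -/
theorem Fac.topo (D : Fac X k) (hs : Function.Surjective D.Q) :
    ∃ δ > 0, (∀ x v, ‖v‖ < δ → D.Q (x + v) = D.Q x → v = 0) ∧
      (∃ h : C(Fin k → AddCircle (1 : ℝ), X), (∀ x, h (tp x) = D.Q x) ∧ IsCoveringMap h) ∧
      ∀ (φ : X → X) (x₀ y₀ : Fin k → ℝ), Continuous φ → D.Q y₀ = φ (D.Q x₀) →
      ∃ G : (Fin k → ℝ) → (Fin k → ℝ), Continuous G ∧ (∀ x, D.Q (G x) = φ (D.Q x)) ∧ G x₀ = y₀ := by
  obtain ⟨δ, hδ, hinj⟩ := D.loc_inj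
  obtain ⟨h, hh⟩ := exists_torus_map D.cont D.per
  have hcov := covering (E := E) D.cont hs hδ hinj h hh
  exact ⟨δ, hδ, hinj, ⟨h, hh, hcov⟩, fun φ x₀ y₀ hφ h0 =>
    exists_deck D.cont h hh hcov φ x₀ y₀ hφ h0⟩

include E in
/-- homeomorphisms commuting with `f` are affine -/
theorem Fac.comm (D : Fac X k) (hs : Function.Surjective D.Q) (g : X ≃ₜ X)
    (hg : ∀ x, g (D.f x) = D.f (g x)) :
    ∃ (C C' : Matrix (Fin k) (Fin k) ℤ) (c : Fin k → ℝ), C * C' = 1 ∧
      ∀ x, g (D.Q x) = D.Q (am C x + c) := by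
  obtain ⟨δ, hδ, hinj, -, hex⟩ := D.topo (E := E) hs
  obtain ⟨y₀, hy₀⟩ := hs (g (D.Q 0))
  obtain ⟨C, C', c, h1, -, h3⟩ := D.lift_int hδ hinj hex g hg 0 y₀ hy₀
  exact ⟨C, C', c, h1, fun x => (h3 x).symm⟩

theorem tp_am (C : Matrix (Fin k) (Fin k) ℤ) (x : Fin k → ℝ) : tp (am C x) = torusMap C (tp x) := by
  funext i
  exact coe_am C x i

theorem tp_add (x y : Fin k → ℝ) : tp (x + y) = tp x + tp y := by
  funext i
  rfl

theorem unit_of {C C' : Matrix (Fin k) (Fin k) ℤ} (h : C * C' = 1) : IsUnit C.det := by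
  have h3 := congrArg Matrix.det h
  rw [Matrix.det_mul, Matrix.det_one] at h3
  exact IsUnit.of_mul_eq_one _ h3

include E in
/-- the infra-toral structure -/
theorem Fac.infra (D : Fac X k) (hs : Function.Surjective D.Q) : InfraTor D.f := by
  obtain ⟨δ, hδ, hinj, ⟨h, hh, hcov⟩, hex⟩ := D.topo (E := E) hs
  refine ⟨k, D.B, h, unit_of D.hBB, D.hyp, hcov, fun x => ?_, fun t => ?_, fun t t' htt => ?_⟩
  · obtain ⟨y, rfl⟩ := hs x
    exact ⟨tp y, hh y⟩
  · obtain ⟨x, rfl⟩ := tp_surj t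
    rw [hh, D.semi, ← hh, tp_am]
  · obtain ⟨x, rfl⟩ := tp_surj t
    obtain ⟨y, rfl⟩ := tp_surj t'
    rw [hh, hh] at htt
    obtain ⟨C, C', c, h1, h2, h3⟩ := D.lift_int hδ hinj hex (Homeomorph.refl X) (fun _ => rfl) x y
      htt.symm
    refine ⟨C, tp c, unit_of h1, ?_, fun w => ?_⟩
    · rw [h2, tp_add, tp_am]
    · obtain ⟨w, rfl⟩ := tp_surj w
      rw [← tp_am, ← tp_add, hh, h3, hh]
      rfl

omit [Nonempty X] in
/-- powers of expansive homeomorphisms -/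
theorem exp_iter {f : X ≃ₜ X} {ε : ℝ} (hε : 0 < ε) (hexp : Exp f ε) {n : ℕ} (hn : 1 ≤ n) :
    ∃ ε' > 0, Exp (Pool.Agent.H721R2.iterHomeo f n) ε' := by
  obtain ⟨η, hη, h1⟩ := Pool.Agent.H789R2.GP.T1_unif f n hε
  obtain ⟨η', hη', h1'⟩ := Pool.Agent.H789R2.GP.T1_unif f.symm n hε
  refine ⟨min η η', lt_min hη hη', fun x y h => hexp x y fun j => ?_⟩
  have hj : j = j % n + n * (j / n) := (Nat.mod_add_div j n).symm
  obtain ⟨h2, h3⟩ := h (j / n)
  rw [Pool.Agent.TH289.iterHomeo_iter, Pool.Agent.TH289.iterHomeo_iter] at h2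
  rw [Pool.Agent.TH289.iterHomeo_symm_iter, Pool.Agent.TH289.iterHomeo_symm_iter] at h3
  rw [hj, Function.iterate_add_apply, Function.iterate_add_apply, Function.iterate_add_apply,
    Function.iterate_add_apply]
  exact ⟨h1 _ (Nat.mod_lt _ (by omega)).le _ _ (h2.trans_le (min_le_left _ _)),
    h1' _ (Nat.mod_lt _ (by omega)).le _ _ (h3.trans_le (min_le_right _ _))⟩

include E in
/-- **an expansive homeomorphism of a closed manifold with a power that is a toral factor is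
infra-toral** -/
theorem infra_of_factor {f : X ≃ₜ X} {ε : ℝ} (hε : 0 < ε) (hexp : Exp f ε) {n : ℕ} (hn : 1 ≤ n)
    (hfac : ToralFactor f^[n]) : InfraTor f := by
  obtain ⟨m, A, b, h, hc, hs, hh⟩ := hfac
  obtain ⟨b₀, rfl⟩ := tp_surj b
  obtain ⟨ε', hε', hexp'⟩ := exp_iter hε hexp hn
  obtain ⟨g, hg⟩ : ∃ g, g = Pool.Agent.H721R2.iterHomeo f n := ⟨_, rfl⟩
  rw [← hg] at hexp'
  have hgf : ∀ x, g x = f^[n] x := fun x => by rw [hg]; rfl
  obtain ⟨k, B, B', c, Q, h1, h2, h3, h4, h5, h6⟩ := reduce g g.injective A b₀ (fun x => h (tp x))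
    (hc.comp tp_cont) (hs.comp tp_surj) (fun x z => by rw [tp_add_zr])
    (fun x => by rw [hgf, hh, tp_add, tp_am])
  obtain ⟨D, hD, hDs⟩ := exists_fac hε' hexp' h1 h2 h3 h4 h5 h6
  obtain ⟨C, C', c', h7, h8⟩ := D.comm (E := E) hDs f (fun x => by
    rw [hD, hgf, hgf]
    exact (Function.iterate_succ_apply' f n x).symm.trans (Function.iterate_succ_apply f n x))
  obtain ⟨D', hD', hDs'⟩ := exists_fac hε hexp h7 D.cont hDs D.per D.st h8
  have := D'.infra (E := E) hDs'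
  rwa [hD'] at this

end Pool.Agent.T9h69.CT
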