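import Pool.Agent.T9h69.CT.F1
import Pool.Agent.TH289.L.P3

set_option autoImplicit false
set_option linter.unusedSectionVars false

open Filter Topology Set Metric
open scoped Manifold ContDiff

namespace Pool.Agent.T9h69.CT

open Pool.Agent.W740.TC Pool.Agent.H779R2.To
open Pool.Agent.TH289.K (Expansive)

theorem torusMap_zero {k : ℕ} (B : Matrix (Fin k) (Fin k) ℤ) (x : Fin k → AddCircle (1 : ℝ)) :
    torusMap B x + 0 = torusMap B x := add_zero _

theorem factor_of_infra {X : Type*} [TopologicalSpace X] {f : X → X} (h : InfraTor f) :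
    ∃ n : ℕ, 1 ≤ n ∧ ToralFactor f^[n] := by
  obtain ⟨k, B, h, -, -, hcov, hs, hh, -⟩ := h
  refine ⟨1, le_rfl, k, B, 0, h, hcov.continuous, hs, fun x => ?_⟩
  rw [Function.iterate_one, add_zero]
  exact hh x

theorem man_iff {E : Type*} [NormedAddCommGroup E] [NormedSpace ℝ E] [FiniteDimensional ℝ E]
    {M : Type*} [TopologicalSpace M] [T2Space M] [CompactSpace M] [ChartedSpace E M]
    (f : M ≃ₜ M) (hf : Expansive f) :
    (∃ n : ℕ, 1 ≤ n ∧ ToralFactor f^[n]) ↔ InfraTor f := by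
  refine ⟨?_, factor_of_infra⟩
  rintro ⟨n, hn, hfac⟩
  have hne : Nonempty M := by
    obtain ⟨m, A, b, h, -, -, -⟩ := hfac
    exact ⟨h 0⟩
  have hmet : TopologicalSpace.MetrizableSpace M := Manifold.metrizableSpace 𝓘(ℝ, E) M
  let _ : MetricSpace M := TopologicalSpace.metrizableSpaceMetric M
  obtain ⟨𝒰, h𝒰, hexp⟩ := hf
  rw [nhdsSet_diagonal_eq_uniformity, Metric.mem_uniformity_dist] at h𝒰
  obtain ⟨ε, hε, h2⟩ := h𝒰
  exact infra_of_factor (E := E) hε (fun x y h => hexp x y fun n => ⟨h2 (h n).1, h2 (h n).2⟩) hn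
    hfac

end Pool.Agent.T9h69.CT
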